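import Pool.Agent.Q49.MR2.Stm

/-!
# Project MR2 (helper49), job ARF (helper214): the Arf invariant
-/

set_option autoImplicit false
set_option linter.unusedVariables false
set_option linter.unusedSimpArgs false

open Module

namespace Q214.MR2.ARF

open Q49.MR2 Q49.MR

section pure

variable {L : Type} [Field L]

/-- the standing equations between the elements of `L` -/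
structure Dat (t0 t1 t2 t3 b0 b1 b2 b3 D w N J X1 X2 X3 : L) : Prop where
  h2 : (2 : L) = 0
  hN : N = (1 + (t0 + t1) + b0 ^ 2) + (1 + (t1 + t2) + b1 ^ 2) + (1 + (t2 + t3) + b2 ^ 2)
    + (1 + (t3 + (t0 + 1)) + b3 ^ 2)
  hJ : J = (1 + (t0 + t1) + b0 ^ 2) + (1 + (t2 + t3) + b2 ^ 2) + D * N
  hX1 : X1 = D * (D + 1) * J + ((t0 ^ 2 + t0) + (t2 ^ 2 + t2)) * D ^ 2
    + ((t1 ^ 2 + t1) + (t3 ^ 2 + t3)) * (D + 1) ^ 2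
  hX2 : X2 = J ^ 2 + J + ((t0 ^ 2 + t0) + (t1 ^ 2 + t1) + (t2 ^ 2 + t2) + (t3 ^ 2 + t3))
  hX3 : X3 = ((w + D * (D + 1)) * J + (1 + (t0 + t1) + b0 ^ 2) * (D * (D + 1))
      + (1 + (t2 + t3) + b2 ^ 2) * (D + 1) ^ 2 + (1 + (t1 + t2) + b1 ^ 2) * D) ^ 2
    + w ^ 2 * (J + ((t0 ^ 2 + t0) + (t1 ^ 2 + t1) + (t2 ^ 2 + t2) + (t3 ^ 2 + t3)))
    + w * (D * (D + 1)) * N + (D + 1) ^ 2 * (1 + (t2 + t3) + b2 ^ 2)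
    + D ^ 2 * (1 + (t1 + t2) + b1 ^ 2) + (t1 ^ 2 + t1) * D ^ 2 + (t2 ^ 2 + t2)
    + (t3 ^ 2 + t3) * (D + 1) ^ 2

variable {t0 t1 t2 t3 b0 b1 b2 b3 D w N J X1 X2 X3 : L}

theorem c1 (H : Dat t0 t1 t2 t3 b0 b1 b2 b3 D w N J X1 X2 X3) :
    X2 = (b0 ^ 2 + b0) ^ 2 + (b2 ^ 2 + b2) ^ 2 + N ^ 2 * D ^ 2 + N * D := by
  obtain ⟨h2, hN, hJ, hX1, hX2, hX3⟩ := H
  subst hX3 hX2 hX1 hJ hN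
  linear_combination (t0 ^ 2 + t0 * t1 + 3 * t0 + b0 ^ 2 * t0 + t0 * t2 + t0 * t3 + b2 ^ 2 * t0 + 2 * D * t0 ^ 2 + 4
      * D * t0 * t1 + 9 * D * t0 + 3 * D * b0 ^ 2 * t0 + 4 * D * t0 * t2 + D * b1 ^ 2 * t0 + 4 * D *
      t0 * t3 + 3 * D * b2 ^ 2 * t0 + D * b3 ^ 2 * t0 + t1 ^ 2 + 3 * t1 + b0 ^ 2 * t1 + t1 * t2 + t1
      * t3 + b2 ^ 2 * t1 + 2 * D * t1 ^ 2 + 9 * D * t1 + 3 * D * b0 ^ 2 * t1 + 4 * D * t1 * t2 + D *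
      b1 ^ 2 * t1 + 4 * D * t1 * t3 + 3 * D * b2 ^ 2 * t1 + D * b3 ^ 2 * t1 + 3 + 2 * b0 ^ 2 + 3 * t2
      + 3 * t3 + 2 * b2 ^ 2 + 10 * D + 7 * D * b0 ^ 2 + 9 * D * t2 + 2 * D * b1 ^ 2 + 9 * D * t3 + 7
      * D * b2 ^ 2 + 2 * D * b3 ^ 2 + b0 ^ 2 * t2 + b0 ^ 2 * t3 + b0 ^ 2 * b2 ^ 2 + D * b0 ^ 4 + 3 *
      D * b0 ^ 2 * t2 + D * b0 ^ 2 * b1 ^ 2 + 3 * D * b0 ^ 2 * t3 + 2 * D * b0 ^ 2 * b2 ^ 2 + D * b0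
      ^ 2 * b3 ^ 2 + t2 ^ 2 + t2 * t3 + b2 ^ 2 * t2 + 2 * D * t2 ^ 2 + D * b1 ^ 2 * t2 + 4 * D * t2 *
      t3 + 3 * D * b2 ^ 2 * t2 + D * b3 ^ 2 * t2 + t3 ^ 2 + b2 ^ 2 * t3 + D * b1 ^ 2 * t3 + 2 * D *
      t3 ^ 2 + 3 * D * b2 ^ 2 * t3 + D * b3 ^ 2 * t3 + D * b1 ^ 2 * b2 ^ 2 + D * b2 ^ 4 + D * b2 ^ 2
      * b3 ^ 2 - b0 ^ 3 - b2 ^ 3) * h2

theorem c2 (H : Dat t0 t1 t2 t3 b0 b1 b2 b3 D w N J X1 X2 X3) :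
    X2 = (b1 ^ 2 + b1) ^ 2 + (b3 ^ 2 + b3) ^ 2 + N ^ 2 * (D + 1) ^ 2 + N * (D + 1) := by
  obtain ⟨h2, hN, hJ, hX1, hX2, hX3⟩ := H
  subst hX3 hX2 hX1 hJ hN
  linear_combination (- t0 ^ 2 - 3 * t0 * t1 - 8 * t0 - b0 ^ 2 * t0 - 3 * t0 * t2 - 3 * t0 * t3 - b2 ^ 2 * t0 - 2 * D
      * t0 ^ 2 - 4 * D * t0 * t1 - 11 * D * t0 - D * b0 ^ 2 * t0 - 4 * D * t0 * t2 - 3 * D * b1 ^ 2 *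
      t0 - 4 * D * t0 * t3 - D * b2 ^ 2 * t0 - 3 * D * b3 ^ 2 * t0 - t1 ^ 2 - 8 * t1 - b0 ^ 2 * t1 -
      3 * t1 * t2 - 3 * t1 * t3 - b2 ^ 2 * t1 - 2 * D * t1 ^ 2 - 11 * D * t1 - D * b0 ^ 2 * t1 - 4 *
      D * t1 * t2 - 3 * D * b1 ^ 2 * t1 - 4 * D * t1 * t3 - D * b2 ^ 2 * t1 - 3 * D * b3 ^ 2 * t1 -
      12 - 3 * b0 ^ 2 - 8 * t2 - 8 * t3 - 3 * b2 ^ 2 - 15 * D - 3 * D * b0 ^ 2 - 11 * D * t2 - 8 * D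
      * b1 ^ 2 - 11 * D * t3 - 3 * D * b2 ^ 2 - 8 * D * b3 ^ 2 - b0 ^ 2 * t2 - b0 ^ 2 * t3 - D * b0 ^
      2 * t2 - D * b0 ^ 2 * b1 ^ 2 - D * b0 ^ 2 * t3 - D * b0 ^ 2 * b3 ^ 2 - t2 ^ 2 - 3 * t2 * t3 -
      b2 ^ 2 * t2 - 2 * D * t2 ^ 2 - 3 * D * b1 ^ 2 * t2 - 4 * D * t2 * t3 - D * b2 ^ 2 * t2 - 3 * D
      * b3 ^ 2 * t2 - t3 ^ 2 - b2 ^ 2 * t3 - 3 * D * b1 ^ 2 * t3 - 2 * D * t3 ^ 2 - D * b2 ^ 2 * t3 -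
      3 * D * b3 ^ 2 * t3 - D * b1 ^ 2 * b2 ^ 2 - D * b2 ^ 2 * b3 ^ 2 - b1 ^ 4 - b1 ^ 3 - 6 * b1 ^ 2
      - b3 ^ 4 - b3 ^ 3 - 6 * b3 ^ 2 - 2 * b1 ^ 2 * t0 - 2 * b3 ^ 2 * t0 - 2 * b1 ^ 2 * t1 - 2 * b3 ^
      2 * t1 - b0 ^ 2 * b1 ^ 2 - b0 ^ 2 * b3 ^ 2 - 2 * b1 ^ 2 * t2 - 2 * b3 ^ 2 * t2 - D * b1 ^ 4 - 2
      * b1 ^ 2 * t3 - b1 ^ 2 * b2 ^ 2 - 2 * D * b1 ^ 2 * b3 ^ 2 - b1 ^ 2 * b3 ^ 2 - 2 * b3 ^ 2 * t3 -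
      b2 ^ 2 * b3 ^ 2 - D * b3 ^ 4) * h2

theorem ca (H : Dat t0 t1 t2 t3 b0 b1 b2 b3 D w N J X1 X2 X3) :
    X3 = w ^ 2 * X2 + w * (D * (D + 1)) * N + (D * (D + 1)) ^ 2 * D ^ 2 * N ^ 2
      + (b1 ^ 2 + b1) ^ 2 * D ^ 2 + (b2 ^ 2 + b2) ^ 2 * (D + 1) ^ 2 := by
  obtain ⟨h2, hN, hJ, hX1, hX2, hX3⟩ := H
  subst hX3 hX2 hX1 hJ hN
  linear_combination (8 * D ^ 2 * t0 ^ 2 * w + 18 * D ^ 2 * t0 * t1 * w + 39 * D ^ 2 * t0 * w + 13 * D ^ 2 * b0 ^ 2 *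
      t0 * w + 20 * D ^ 2 * t0 * t2 * w + 18 * D ^ 2 * t0 * t3 * w + 15 * D ^ 2 * b2 ^ 2 * t0 * w +
      10 * D ^ 3 * t0 ^ 2 * w + 20 * D ^ 3 * t0 * t1 * w + 47 * D ^ 3 * t0 * w + 13 * D ^ 3 * b0 ^ 2
      * t0 * w + 20 * D ^ 3 * t0 * t2 * w + 7 * D ^ 3 * b1 ^ 2 * t0 * w + 20 * D ^ 3 * t0 * t3 * w +
      13 * D ^ 3 * b2 ^ 2 * t0 * w + 7 * D ^ 3 * b3 ^ 2 * t0 * w + 2 * D * t0 ^ 2 * w + 5 * D * t0 *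
      t1 * w + 12 * D * t0 * w + 4 * D * b0 ^ 2 * t0 * w + 8 * D * t0 * t2 * w + 7 * D * t0 * t3 * w
      + 7 * D * b2 ^ 2 * t0 * w + 5 * D ^ 2 * b1 ^ 2 * t0 * w + 3 * D ^ 2 * b3 ^ 2 * t0 * w + t0 * t2
      * w + t0 * t3 * w + t0 * w + b2 ^ 2 * t0 * w + D * b1 ^ 2 * t0 * w + 10 * D ^ 2 * t1 ^ 2 * w +
      44 * D ^ 2 * t1 * w + 14 * D ^ 2 * b0 ^ 2 * t1 * w + 22 * D ^ 2 * t1 * t2 * w + 20 * D ^ 2 * t1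
      * t3 * w + 16 * D ^ 2 * b2 ^ 2 * t1 * w + 10 * D ^ 3 * t1 ^ 2 * w + 47 * D ^ 3 * t1 * w + 13 *
      D ^ 3 * b0 ^ 2 * t1 * w + 20 * D ^ 3 * t1 * t2 * w + 7 * D ^ 3 * b1 ^ 2 * t1 * w + 20 * D ^ 3 *
      t1 * t3 * w + 13 * D ^ 3 * b2 ^ 2 * t1 * w + 7 * D ^ 3 * b3 ^ 2 * t1 * w + 3 * D * t1 ^ 2 * w +
      14 * D * t1 * w + 5 * D * b0 ^ 2 * t1 * w + 9 * D * t1 * t2 * w + 8 * D * t1 * t3 * w + 8 * D *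
      b2 ^ 2 * t1 * w + 6 * D ^ 2 * b1 ^ 2 * t1 * w + 4 * D ^ 2 * b3 ^ 2 * t1 * w + t1 * t2 * w + t1
      * t3 * w + t1 * w + b2 ^ 2 * t1 * w + D * b1 ^ 2 * t1 * w + 48 * D ^ 2 * w + 31 * D ^ 2 * b0 ^
      2 * w + 49 * D ^ 2 * t2 * w + 44 * D ^ 2 * t3 * w + 36 * D ^ 2 * b2 ^ 2 * w + 55 * D ^ 3 * w +
      31 * D ^ 3 * b0 ^ 2 * w + 47 * D ^ 3 * t2 * w + 16 * D ^ 3 * b1 ^ 2 * w + 47 * D ^ 3 * t3 * w +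
      31 * D ^ 3 * b2 ^ 2 * w + 16 * D ^ 3 * b3 ^ 2 * w + 17 * D * w + 11 * D * b0 ^ 2 * w + 21 * D *
      t2 * w + 19 * D * t3 * w + 18 * D * b2 ^ 2 * w + 13 * D ^ 2 * b1 ^ 2 * w + 8 * D ^ 2 * b3 ^ 2 *
      w + 3 * t2 * w + 3 * t3 * w + 2 * w + 3 * b2 ^ 2 * w + 3 * D * b1 ^ 2 * w + 5 * D ^ 2 * b0 ^ 4
      * w + 15 * D ^ 2 * b0 ^ 2 * t2 * w + 14 * D ^ 2 * b0 ^ 2 * t3 * w + 11 * D ^ 2 * b0 ^ 2 * b2 ^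
      2 * w + 4 * D ^ 3 * b0 ^ 4 * w + 13 * D ^ 3 * b0 ^ 2 * t2 * w + 5 * D ^ 3 * b0 ^ 2 * b1 ^ 2 * w
      + 13 * D ^ 3 * b0 ^ 2 * t3 * w + 8 * D ^ 3 * b0 ^ 2 * b2 ^ 2 * w + 5 * D ^ 3 * b0 ^ 2 * b3 ^ 2
      * w + 2 * D * b0 ^ 4 * w + 7 * D * b0 ^ 2 * t2 * w + 6 * D * b0 ^ 2 * t3 * w + 6 * D * b0 ^ 2 *
      b2 ^ 2 * w + 4 * D ^ 2 * b0 ^ 2 * b1 ^ 2 * w + 3 * D ^ 2 * b0 ^ 2 * b3 ^ 2 * w + b0 ^ 2 * t2 *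
      w + b0 ^ 2 * t3 * w + b0 ^ 2 * w + b0 ^ 2 * b2 ^ 2 * w + D * b0 ^ 2 * b1 ^ 2 * w + 12 * D ^ 2 *
      t2 ^ 2 * w + 22 * D ^ 2 * t2 * t3 * w + 17 * D ^ 2 * b2 ^ 2 * t2 * w + 10 * D ^ 3 * t2 ^ 2 * w
      + 7 * D ^ 3 * b1 ^ 2 * t2 * w + 20 * D ^ 3 * t2 * t3 * w + 13 * D ^ 3 * b2 ^ 2 * t2 * w + 7 * D
      ^ 3 * b3 ^ 2 * t2 * w + 6 * D * t2 ^ 2 * w + 11 * D * t2 * t3 * w + 10 * D * b2 ^ 2 * t2 * w +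
      7 * D ^ 2 * b1 ^ 2 * t2 * w + 5 * D ^ 2 * b3 ^ 2 * t2 * w + t2 ^ 2 * w + 2 * t2 * t3 * w + 2 *
      b2 ^ 2 * t2 * w + 2 * D * b1 ^ 2 * t2 * w + 10 * D ^ 2 * t3 ^ 2 * w + 16 * D ^ 2 * b2 ^ 2 * t3
      * w + 7 * D ^ 3 * b1 ^ 2 * t3 * w + 10 * D ^ 3 * t3 ^ 2 * w + 13 * D ^ 3 * b2 ^ 2 * t3 * w + 7
      * D ^ 3 * b3 ^ 2 * t3 * w + 5 * D * t3 ^ 2 * w + 9 * D * b2 ^ 2 * t3 * w + 6 * D ^ 2 * b1 ^ 2 *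
      t3 * w + 4 * D ^ 2 * b3 ^ 2 * t3 * w + t3 ^ 2 * w + 2 * b2 ^ 2 * t3 * w + 2 * D * b1 ^ 2 * t3 *
      w + 6 * D ^ 2 * b2 ^ 4 * w + 5 * D ^ 3 * b1 ^ 2 * b2 ^ 2 * w + 4 * D ^ 3 * b2 ^ 4 * w + 5 * D ^
      3 * b2 ^ 2 * b3 ^ 2 * w + 4 * D * b2 ^ 4 * w + 5 * D ^ 2 * b1 ^ 2 * b2 ^ 2 * w + 4 * D ^ 2 * b2
      ^ 2 * b3 ^ 2 * w + b2 ^ 4 * w + 2 * D * b1 ^ 2 * b2 ^ 2 * w + 4 * D ^ 4 * t0 ^ 2 * w + 8 * D ^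
      4 * t0 * t1 * w + 20 * D ^ 4 * t0 * w + 4 * D ^ 4 * b0 ^ 2 * t0 * w + 8 * D ^ 4 * t0 * t2 * w +
      4 * D ^ 4 * b1 ^ 2 * t0 * w + 8 * D ^ 4 * t0 * t3 * w + 4 * D ^ 4 * b2 ^ 2 * t0 * w + 4 * D ^ 4
      * b3 ^ 2 * t0 * w + 4 * D ^ 4 * t1 ^ 2 * w + 20 * D ^ 4 * t1 * w + 4 * D ^ 4 * b0 ^ 2 * t1 * w
      + 8 * D ^ 4 * t1 * t2 * w + 4 * D ^ 4 * b1 ^ 2 * t1 * w + 8 * D ^ 4 * t1 * t3 * w + 4 * D ^ 4 *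
      b2 ^ 2 * t1 * w + 4 * D ^ 4 * b3 ^ 2 * t1 * w + 25 * D ^ 4 * w + 10 * D ^ 4 * b0 ^ 2 * w + 20 *
      D ^ 4 * t2 * w + 10 * D ^ 4 * b1 ^ 2 * w + 20 * D ^ 4 * t3 * w + 10 * D ^ 4 * b2 ^ 2 * w + 10 *
      D ^ 4 * b3 ^ 2 * w + D ^ 4 * b0 ^ 4 * w + 4 * D ^ 4 * b0 ^ 2 * t2 * w + 2 * D ^ 4 * b0 ^ 2 * b1
      ^ 2 * w + 4 * D ^ 4 * b0 ^ 2 * t3 * w + 2 * D ^ 4 * b0 ^ 2 * b2 ^ 2 * w + 2 * D ^ 4 * b0 ^ 2 *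
      b3 ^ 2 * w + 4 * D ^ 4 * t2 ^ 2 * w + 4 * D ^ 4 * b1 ^ 2 * t2 * w + 8 * D ^ 4 * t2 * t3 * w + 4
      * D ^ 4 * b2 ^ 2 * t2 * w + 4 * D ^ 4 * b3 ^ 2 * t2 * w + D ^ 4 * b1 ^ 4 * w + 4 * D ^ 4 * b1 ^
      2 * t3 * w + 2 * D ^ 4 * b1 ^ 2 * b2 ^ 2 * w + 2 * D ^ 4 * b1 ^ 2 * b3 ^ 2 * w + D ^ 3 * b1 ^ 4
      * w + 2 * D ^ 3 * b1 ^ 2 * b3 ^ 2 * w + D ^ 2 * b1 ^ 4 * w + 4 * D ^ 4 * t3 ^ 2 * w + 4 * D ^ 4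
      * b2 ^ 2 * t3 * w + 4 * D ^ 4 * b3 ^ 2 * t3 * w + D ^ 4 * b2 ^ 4 * w + 2 * D ^ 4 * b2 ^ 2 * b3
      ^ 2 * w + D ^ 4 * b3 ^ 4 * w + D ^ 3 * b3 ^ 4 * w + D * b3 ^ 2 * t2 * w + D * b3 ^ 2 * t3 * w +
      D * b3 ^ 2 * w + D * b2 ^ 2 * b3 ^ 2 * w + D ^ 2 * b1 ^ 2 * b3 ^ 2 * w + 10 * D ^ 4 * t0 ^ 2 +
      22 * D ^ 4 * t0 * t1 + 48 * D ^ 4 * t0 + 16 * D ^ 4 * b0 ^ 2 * t0 + 24 * D ^ 4 * t0 * t2 + 22 *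
      D ^ 4 * t0 * t3 + 18 * D ^ 4 * b2 ^ 2 * t0 + 4 * D ^ 5 * t0 ^ 2 + 8 * D ^ 5 * t0 * t1 + 18 * D
      ^ 5 * t0 + 6 * D ^ 5 * b0 ^ 2 * t0 + 8 * D ^ 5 * t0 * t2 + 2 * D ^ 5 * b1 ^ 2 * t0 + 8 * D ^ 5
      * t0 * t3 + 6 * D ^ 5 * b2 ^ 2 * t0 + 2 * D ^ 5 * b3 ^ 2 * t0 + 8 * D ^ 3 * t0 ^ 2 + 20 * D ^ 3
      * t0 * t1 + 44 * D ^ 3 * t0 + 14 * D ^ 3 * b0 ^ 2 * t0 + 26 * D ^ 3 * t0 * t2 + 22 * D ^ 3 * t0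
      * t3 + 20 * D ^ 3 * b2 ^ 2 * t0 + 6 * D ^ 4 * b1 ^ 2 * t0 + 4 * D ^ 4 * b3 ^ 2 * t0 + 12 * D ^
      2 * t0 * t2 + 10 * D ^ 2 * t0 * t3 + 16 * D ^ 2 * t0 + 10 * D ^ 2 * b2 ^ 2 * t0 + 6 * D ^ 3 *
      b1 ^ 2 * t0 + 12 * D ^ 4 * t1 ^ 2 + 53 * D ^ 4 * t1 + 17 * D ^ 4 * b0 ^ 2 * t1 + 26 * D ^ 4 *
      t1 * t2 + 24 * D ^ 4 * t1 * t3 + 19 * D ^ 4 * b2 ^ 2 * t1 + 4 * D ^ 5 * t1 ^ 2 + 18 * D ^ 5 *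
      t1 + 6 * D ^ 5 * b0 ^ 2 * t1 + 8 * D ^ 5 * t1 * t2 + 2 * D ^ 5 * b1 ^ 2 * t1 + 8 * D ^ 5 * t1 *
      t3 + 6 * D ^ 5 * b2 ^ 2 * t1 + 2 * D ^ 5 * b3 ^ 2 * t1 + 12 * D ^ 3 * t1 ^ 2 + 53 * D ^ 3 * t1
      + 17 * D ^ 3 * b0 ^ 2 * t1 + 30 * D ^ 3 * t1 * t2 + 26 * D ^ 3 * t1 * t3 + 23 * D ^ 3 * b2 ^ 2
      * t1 + 7 * D ^ 4 * b1 ^ 2 * t1 + 5 * D ^ 4 * b3 ^ 2 * t1 + 16 * D ^ 2 * t1 * t2 + 13 * D ^ 2 *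
      t1 * t3 + 23 * D ^ 2 * t1 + 13 * D ^ 2 * b2 ^ 2 * t1 + 7 * D ^ 3 * b1 ^ 2 * t1 + 58 * D ^ 4 +
      38 * D ^ 4 * b0 ^ 2 + 58 * D ^ 4 * t2 + 53 * D ^ 4 * t3 + 43 * D ^ 4 * b2 ^ 2 + 20 * D ^ 5 + 14
      * D ^ 5 * b0 ^ 2 + 18 * D ^ 5 * t2 + 4 * D ^ 5 * b1 ^ 2 + 18 * D ^ 5 * t3 + 14 * D ^ 5 * b2 ^ 2
      + 4 * D ^ 5 * b3 ^ 2 + 59 * D ^ 3 + 37 * D ^ 3 * b0 ^ 2 + 67 * D ^ 3 * t2 + 58 * D ^ 3 * t3 +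
      51 * D ^ 3 * b2 ^ 2 + 15 * D ^ 4 * b1 ^ 2 + 10 * D ^ 4 * b3 ^ 2 + 38 * D ^ 2 * t2 + 32 * D ^ 2
      * t3 + 28 * D ^ 2 + 30 * D ^ 2 * b2 ^ 2 + 16 * D ^ 3 * b1 ^ 2 + 6 * D ^ 4 * b0 ^ 4 + 18 * D ^ 4
      * b0 ^ 2 * t2 + 17 * D ^ 4 * b0 ^ 2 * t3 + 13 * D ^ 4 * b0 ^ 2 * b2 ^ 2 + 2 * D ^ 5 * b0 ^ 4 +
      6 * D ^ 5 * b0 ^ 2 * t2 + 2 * D ^ 5 * b0 ^ 2 * b1 ^ 2 + 6 * D ^ 5 * b0 ^ 2 * t3 + 4 * D ^ 5 *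
      b0 ^ 2 * b2 ^ 2 + 2 * D ^ 5 * b0 ^ 2 * b3 ^ 2 + 6 * D ^ 3 * b0 ^ 4 + 21 * D ^ 3 * b0 ^ 2 * t2 +
      18 * D ^ 3 * b0 ^ 2 * t3 + 16 * D ^ 3 * b0 ^ 2 * b2 ^ 2 + 5 * D ^ 4 * b0 ^ 2 * b1 ^ 2 + 4 * D ^
      4 * b0 ^ 2 * b3 ^ 2 + 11 * D ^ 2 * b0 ^ 2 * t2 + 9 * D ^ 2 * b0 ^ 2 * t3 + 15 * D ^ 2 * b0 ^ 2
      + 9 * D ^ 2 * b0 ^ 2 * b2 ^ 2 + 5 * D ^ 3 * b0 ^ 2 * b1 ^ 2 + 14 * D ^ 4 * t2 ^ 2 + 26 * D ^ 4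
      * t2 * t3 + 20 * D ^ 4 * b2 ^ 2 * t2 + 4 * D ^ 5 * t2 ^ 2 + 2 * D ^ 5 * b1 ^ 2 * t2 + 8 * D ^ 5
      * t2 * t3 + 6 * D ^ 5 * b2 ^ 2 * t2 + 2 * D ^ 5 * b3 ^ 2 * t2 + 18 * D ^ 3 * t2 ^ 2 + 32 * D ^
      3 * t2 * t3 + 27 * D ^ 3 * b2 ^ 2 * t2 + 8 * D ^ 4 * b1 ^ 2 * t2 + 6 * D ^ 4 * b3 ^ 2 * t2 + 12
      * D ^ 2 * t2 ^ 2 + 20 * D ^ 2 * t2 * t3 + 19 * D ^ 2 * b2 ^ 2 * t2 + 9 * D ^ 3 * b1 ^ 2 * t2 +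
      12 * D ^ 4 * t3 ^ 2 + 19 * D ^ 4 * b2 ^ 2 * t3 + 2 * D ^ 5 * b1 ^ 2 * t3 + 4 * D ^ 5 * t3 ^ 2 +
      6 * D ^ 5 * b2 ^ 2 * t3 + 2 * D ^ 5 * b3 ^ 2 * t3 + 14 * D ^ 3 * t3 ^ 2 + 24 * D ^ 3 * b2 ^ 2 *
      t3 + 7 * D ^ 4 * b1 ^ 2 * t3 + 5 * D ^ 4 * b3 ^ 2 * t3 + 9 * D ^ 2 * t3 ^ 2 + 16 * D ^ 2 * b2 ^
      2 * t3 + 8 * D ^ 3 * b1 ^ 2 * t3 + 7 * D ^ 4 * b2 ^ 4 + 2 * D ^ 5 * b1 ^ 2 * b2 ^ 2 + 2 * D ^ 5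
      * b2 ^ 4 + 2 * D ^ 5 * b2 ^ 2 * b3 ^ 2 + 10 * D ^ 3 * b2 ^ 4 + 6 * D ^ 4 * b1 ^ 2 * b2 ^ 2 + 5
      * D ^ 4 * b2 ^ 2 * b3 ^ 2 + 7 * D ^ 2 * b2 ^ 4 + 7 * D ^ 3 * b1 ^ 2 * b2 ^ 2 + D ^ 4 * b1 ^ 4 +
      5 * D ^ 3 * b3 ^ 2 * t2 + 4 * D ^ 3 * b3 ^ 2 * t3 + 7 * D ^ 3 * b3 ^ 2 + 4 * D ^ 3 * b2 ^ 2 *
      b3 ^ 2 + D ^ 4 * b1 ^ 2 * b3 ^ 2 + 2 * D ^ 2 * t0 ^ 2 + 6 * D ^ 2 * t0 * t1 + 4 * D ^ 2 * b0 ^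
      2 * t0 + 2 * D ^ 3 * b3 ^ 2 * t0 + 2 * D * t0 * t2 + 2 * D * t0 * t3 + 2 * D * t0 + 2 * D * b2
      ^ 2 * t0 + 2 * D ^ 2 * b1 ^ 2 * t0 + 5 * D ^ 2 * t1 ^ 2 + 6 * D ^ 2 * b0 ^ 2 * t1 + 3 * D ^ 3 *
      b3 ^ 2 * t1 + 3 * D * t1 * t2 + 3 * D * t1 * t3 + 3 * D * t1 + 3 * D * b2 ^ 2 * t1 + 3 * D ^ 2
      * b1 ^ 2 * t1 + 11 * D * t2 + 11 * D * t3 + 7 * D + 9 * D * b2 ^ 2 + 7 * D ^ 2 * b1 ^ 2 + 2 * D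
      ^ 2 * b0 ^ 4 + 2 * D ^ 3 * b0 ^ 2 * b3 ^ 2 + 2 * D * b0 ^ 2 * t2 + 2 * D * b0 ^ 2 * t3 + 2 * D
      * b0 ^ 2 + 2 * D * b0 ^ 2 * b2 ^ 2 + 2 * D ^ 2 * b0 ^ 2 * b1 ^ 2 + 4 * D * t2 ^ 2 + 7 * D * t2
      * t3 + 7 * D * b2 ^ 2 * t2 + 5 * D ^ 2 * b1 ^ 2 * t2 + 4 * D * t3 ^ 2 + 6 * D * b2 ^ 2 * t3 + 4
      * D ^ 2 * b1 ^ 2 * t3 + 2 * D * b2 ^ 4 + 4 * D ^ 2 * b1 ^ 2 * b2 ^ 2 + D ^ 3 * b1 ^ 4 + D ^ 2 *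
      b3 ^ 2 * t2 + D ^ 2 * b3 ^ 2 * t3 + D ^ 2 * b3 ^ 2 + D ^ 2 * b2 ^ 2 * b3 ^ 2 + D ^ 3 * b1 ^ 2 *
      b3 ^ 2 + t2 ^ 2 + t2 * t3 + 2 * t2 + b2 ^ 2 * t2 + D * b1 ^ 2 * t2 + t3 ^ 2 + 2 * t3 + b2 ^ 2 *
      t3 + D * b1 ^ 2 * t3 + 1 + b2 ^ 2 + D * b1 ^ 2 + D * b1 ^ 2 * b2 ^ 2 - D ^ 2 * b1 ^ 3 - D ^ 2 *
      b2 ^ 3 - 2 * D * b2 ^ 3 - b2 ^ 3) * h2

theorem cd (H : Dat t0 t1 t2 t3 b0 b1 b2 b3 D w N J X1 X2 X3) :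
    X1 + X2 * D ^ 2 = (J * D) ^ 2 + J * D + (t1 ^ 2 + t1) + (t3 ^ 2 + t3) := by
  obtain ⟨h2, hN, hJ, hX1, hX2, hX3⟩ := H
  subst hX3 hX2 hX1 hJ hN
  linear_combination (2 * D ^ 2 * t0 + 2 * D ^ 2 * t1 + 2 * D ^ 2 + D ^ 2 * b0 ^ 2 + 2 * D ^ 2 * t2 + 2 * D ^ 2 * t3
      + D ^ 2 * b2 ^ 2 + 2 * D ^ 3 * t0 + 2 * D ^ 3 * t1 + 5 * D ^ 3 + D ^ 3 * b0 ^ 2 + 2 * D ^ 3 *
      t2 + D ^ 3 * b1 ^ 2 + 2 * D ^ 3 * t3 + D ^ 3 * b2 ^ 2 + D ^ 3 * b3 ^ 2 + D * t1 + D * t3 + D ^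
      2 * t0 ^ 2 + D ^ 2 * t2 ^ 2 + D ^ 2 * t1 ^ 2 + D * t1 ^ 2 + D ^ 2 * t3 ^ 2 + D * t3 ^ 2) * h2

theorem ce (h2 : (2 : L) = 0) (t0 t1 t2 t3 b1 b2 : L) :
    (t1 ^ 2 + t1) + (t3 ^ 2 + t3) + (b1 ^ 2 + b1) ^ 2 + (b2 ^ 2 + b2) ^ 2
      = ((t1 + t2) + (t2 + t3)) ^ 2 + ((t1 + t2) + (t2 + t3)) + (b1 ^ 2 + b2 ^ 2) ^ 2
        + (b1 ^ 2 + b2 ^ 2) := by
  linear_combination (b1 ^ 3 + b2 ^ 3 - 2 * t1 * t2 - t1 * t3 - 2 * t2 ^ 2 - 2 * t2 * t3 - t2 - b1 ^ 2 * b2 ^ 2) * h2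

theorem cf (h2 : (2 : L) = 0) (t0 t1 t2 t3 : L) :
    (t0 ^ 2 + t0) + (t1 ^ 2 + t1) + (t2 ^ 2 + t2) + (t3 ^ 2 + t3)
      = ((t0 + t1) + (t2 + t3)) ^ 2 + ((t0 + t1) + (t2 + t3)) := by
  linear_combination (- t0 * t1 - t0 * t2 - t0 * t3 - t1 * t2 - t1 * t3 - t2 * t3) * h2

/-- the element `Y` -/
def YY (t0 t1 t2 t3 b0 b1 b2 b3 D w N J X2 : L) : L :=
  (b2 ^ 2 + b2) * ((b0 ^ 2 + b0) + (b2 ^ 2 + b2)) / (N * D)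
    + (b1 ^ 2 + b1) * ((b1 ^ 2 + b1) + (b3 ^ 2 + b3)) / (N * (D + 1))
    + X2 * w / (N * (D * (D + 1))) + J * D + ((t1 + t2) + (t2 + t3)) + (b1 ^ 2 + b2 ^ 2)
    + ((t0 + t1) + (t2 + t3))

theorem main (H : Dat t0 t1 t2 t3 b0 b1 b2 b3 D w N J X1 X2 X3) (hN0 : N ≠ 0) (hD : D ≠ 0)
    (hD1 : D + 1 ≠ 0) :
    X1 + X2 * X3 / (N * (D * (D + 1))) ^ 2 =
      ((t0 ^ 2 + t0) + (t1 ^ 2 + t1) + (t2 ^ 2 + t2) + (t3 ^ 2 + t3))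
      + (b0 ^ 2 + b0) * (b2 ^ 2 + b2) / N / D + (b1 ^ 2 + b1) * (b3 ^ 2 + b3) / N / (D + 1)
      + ((YY t0 t1 t2 t3 b0 b1 b2 b3 D w N J X2) ^ 2 + YY t0 t1 t2 t3 b0 b1 b2 b3 D w N J X2) := by
  have h2 := H.h2
  have e1 : X2 * X3 / (N * (D * (D + 1))) ^ 2 = (X2 * w / (N * (D * (D + 1)))) ^ 2
      + X2 * w / (N * (D * (D + 1))) + X2 * D ^ 2 + X2 * (b1 ^ 2 + b1) ^ 2 / (N * (D + 1)) ^ 2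
      + X2 * (b2 ^ 2 + b2) ^ 2 / (N * D) ^ 2 := by
    rw [ca H]
    field_simp
    try ring
  have e2 : X2 * (b2 ^ 2 + b2) ^ 2 / (N * D) ^ 2 =
      ((b2 ^ 2 + b2) * ((b0 ^ 2 + b0) + (b2 ^ 2 + b2)) / (N * D)) ^ 2 + (b2 ^ 2 + b2) ^ 2
        + (b2 ^ 2 + b2) ^ 2 / (N * D) := by
    have hs : ((b2 ^ 2 + b2) * ((b0 ^ 2 + b0) + (b2 ^ 2 + b2))) ^ 2
        = (b2 ^ 2 + b2) ^ 2 * ((b0 ^ 2 + b0) ^ 2 + (b2 ^ 2 + b2) ^ 2) := by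
      linear_combination ((b2 ^ 2 + b2) ^ 2 * (b0 ^ 2 + b0) * (b2 ^ 2 + b2)) * h2
    rw [div_pow, hs, c1 H]
    field_simp
    try ring
  have e3 : X2 * (b1 ^ 2 + b1) ^ 2 / (N * (D + 1)) ^ 2 =
      ((b1 ^ 2 + b1) * ((b1 ^ 2 + b1) + (b3 ^ 2 + b3)) / (N * (D + 1))) ^ 2 + (b1 ^ 2 + b1) ^ 2
        + (b1 ^ 2 + b1) ^ 2 / (N * (D + 1)) := by
    have hs : ((b1 ^ 2 + b1) * ((b1 ^ 2 + b1) + (b3 ^ 2 + b3))) ^ 2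
        = (b1 ^ 2 + b1) ^ 2 * ((b1 ^ 2 + b1) ^ 2 + (b3 ^ 2 + b3) ^ 2) := by
      linear_combination ((b1 ^ 2 + b1) ^ 2 * (b1 ^ 2 + b1) * (b3 ^ 2 + b3)) * h2
    rw [div_pow, hs, c2 H]
    field_simp
    try ring
  have e4 : (b0 ^ 2 + b0) * (b2 ^ 2 + b2) / N / D =
      (b2 ^ 2 + b2) * ((b0 ^ 2 + b0) + (b2 ^ 2 + b2)) / (N * D)
        + (b2 ^ 2 + b2) ^ 2 / (N * D) := by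
    linear_combination (-((b2 ^ 2 + b2) ^ 2 / (N * D))) * h2
  have e5 : (b1 ^ 2 + b1) * (b3 ^ 2 + b3) / N / (D + 1) =
      (b1 ^ 2 + b1) * ((b1 ^ 2 + b1) + (b3 ^ 2 + b3)) / (N * (D + 1))
        + (b1 ^ 2 + b1) ^ 2 / (N * (D + 1)) := by
    rw [div_div]
    linear_combination (-((b1 ^ 2 + b1) ^ 2 / (N * (D + 1)))) * h2
  have e6 := cd H
  have e7 := ce h2 t0 t1 t2 t3 b1 b2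
  have e8 := cf h2 t0 t1 t2 t3
  rw [e1, e2, e3, e4, e5, e8, YY]
  generalize (b2 ^ 2 + b2) * ((b0 ^ 2 + b0) + (b2 ^ 2 + b2)) / (N * D) = a
  generalize (b1 ^ 2 + b1) * ((b1 ^ 2 + b1) + (b3 ^ 2 + b3)) / (N * (D + 1)) = a'
  generalize X2 * w / (N * (D * (D + 1))) = x
  generalize (b1 ^ 2 + b1) ^ 2 / (N * (D + 1)) = y1
  generalize (b2 ^ 2 + b2) ^ 2 / (N * D) = y2
  generalize hz : J * D = z at e6 ⊢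
  generalize (t1 + t2) + (t2 + t3) = P at e7 ⊢
  generalize b1 ^ 2 + b2 ^ 2 = Q at e7 ⊢
  generalize (t0 + t1) + (t2 + t3) = f
  linear_combination e6 + e7 - (f ^ 2 + f + a + a' + (a * a' + a * x + a * z + a * P + a * Q + a * f
    + a' * x + a' * z + a' * P + a' * Q + a' * f + x * z + x * P + x * Q + x * f + z * P + z * Q
    + z * f + P * Q + P * f + Q * f)) * h2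

theorem inv (H : Dat t0 t1 t2 t3 b0 b1 b2 b3 D w N J X1 X2 X3) (hN0 : N ≠ 0) (hD : D ≠ 0)
    (hD1 : D + 1 ≠ 0) :
    YY t1 t2 t3 (t0 + 1) b1 b2 b3 b0 (D + 1) (w + D) N J X2
      = YY t0 t1 t2 t3 b0 b1 b2 b3 D w N J X2 := by
  have h2 := H.h2
  have hDD : D + 1 + 1 = D := by linear_combination h2
  have k1 : X2 / (N * (D + 1)) = ((b1 ^ 2 + b1) ^ 2 + (b3 ^ 2 + b3) ^ 2) * (N * (D + 1))⁻¹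
      + N * (D + 1) + 1 := by
    rw [c2 H]
    field_simp
    try ring
  have k2 : J = t0 + t1 + t2 + t3 + 1 + b1 ^ 2 + b3 ^ 2 + (D + 1) * N := by
    obtain ⟨h2, hN, hJ, hX1, hX2, hX3⟩ := H
    subst hX3 hX2 hX1 hJ hN
    linear_combination (- t0 - t1 - 2 - t2 - t3 - b1 ^ 2 - b3 ^ 2) * h2
  have k3 : X2 * (w + D) / (N * ((D + 1) * D)) = X2 * w / (N * (D * (D + 1)))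
      + X2 / (N * (D + 1)) := by
    field_simp
    try ring
  have k4 : (b2 ^ 2 + b2) * (b2 ^ 2 + b2 + (b0 ^ 2 + b0)) / (N * D)
      = (b2 ^ 2 + b2) * (b0 ^ 2 + b0 + (b2 ^ 2 + b2)) / (N * D) := by
    ring
  rw [YY, YY, hDD, k3, k4]
  generalize (b2 ^ 2 + b2) * ((b0 ^ 2 + b0) + (b2 ^ 2 + b2)) / (N * D) = v
  generalize X2 * w / (N * (D * (D + 1))) = x
  generalize X2 / (N * (D + 1)) = g at k1 ⊢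
  rw [div_eq_mul_inv _ (N * (D + 1)), div_eq_mul_inv _ (N * (D + 1))]
  generalize (N * (D + 1))⁻¹ = q at k1 ⊢
  linear_combination k1 + k2 + (b3 ^ 4 * q + 2 * b3 ^ 3 * q + b3 ^ 2 * q + t3 + t0 + 2 + b3 ^ 2 + D * N + N) * h2

end pure

theorem arf (h1 : S2_FX) : S2_ARF := by
  intro K L _ _ _ _ _ σ hc θ b D w hθ hb hN hD hD1 hw hw1
  have h2 : (2 : L) = 0 := by
    have := congrArg (algebraMap K L) hc.two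
    rwa [map_ofNat, map_zero] at this
  have hDD : σ D = D + 1 := by linear_combination hD1 - D * h2
  have hww : σ w = w + D := by linear_combination hw1 - w * h2
  have hD0 : D ≠ 0 := by
    rintro rfl
    simp at hD1
  have hD10 : D + 1 ≠ 0 := by
    rw [← hDD]
    simpa using hD0
  have H : Dat θ (σ θ) (σ (σ θ)) (σ (σ (σ θ))) b (σ b) (σ (σ b)) (σ (σ (σ b))) D w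
      (N4 σ θ (b ^ 2)) (JJ σ θ (b ^ 2) D) (X1 σ θ (b ^ 2) D) (X2 σ θ (b ^ 2) D)
      (X3 σ θ (b ^ 2) D w) := by
    refine ⟨h2, ?_, ?_, ?_, ?_, ?_⟩
    · simp only [N4, t4, nu, phi, map_add, map_mul, map_pow, map_one, hθ]
    · rw [JJ]
      simp only [nu, phi, map_add, map_mul, map_pow, map_one]
    · rw [X1, hDD]
      simp only [nn, map_add, map_mul, map_pow, map_one]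
    · rw [X2]
      simp only [t4, nn, map_add, map_mul, map_pow, map_one]
    · rw [X3, RR, hDD]
      simp only [t4, nn, nu, phi, map_add, map_mul, map_pow, map_one]
  have m := main H hN hD0 hD10
  have hNs : σ (N4 σ θ (b ^ 2)) = N4 σ θ (b ^ 2) := by
    simp only [N4, t4, nu, phi, map_add, map_mul, map_pow, map_one, hθ, hb]
    linear_combination h2
  have hJs : σ (JJ σ θ (b ^ 2) D) = JJ σ θ (b ^ 2) D := by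
    have a1 : σ (JJ σ θ (b ^ 2) D) = (1 + (σ θ + σ (σ θ)) + (σ b) ^ 2)
        + (1 + (σ (σ (σ θ)) + (θ + 1)) + (σ (σ (σ b))) ^ 2) + (D + 1) * N4 σ θ (b ^ 2) := by
      rw [JJ, map_add, map_mul, hNs, hDD]
      simp only [nu, phi, map_add, map_mul, map_pow, map_one, hθ]
    have a2 := H.hJ
    have a3 := H.hN
    rw [a1]
    generalize JJ σ θ (b ^ 2) D = J at *
    generalize N4 σ θ (b ^ 2) = N at *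
    linear_combination (-1 : L) * a2 + a3 + ((1 + (σ θ + σ (σ θ)) + (σ b) ^ 2)
        + (1 + (σ (σ (σ θ)) + (θ + 1)) + (σ (σ (σ b))) ^ 2)) * h2
  have hX2s : σ (X2 σ θ (b ^ 2) D) = X2 σ θ (b ^ 2) D := by
    rw [X2, map_add, map_add, map_pow, hJs]
    congr 1
    simp only [t4, nn, map_add, map_mul, map_pow, map_one, hθ]
    linear_combination (θ + 1) * h2
  set Y := YY θ (σ θ) (σ (σ θ)) (σ (σ (σ θ))) b (σ b) (σ (σ b)) (σ (σ (σ b))) D w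
      (N4 σ θ (b ^ 2)) (JJ σ θ (b ^ 2) D) (X2 σ θ (b ^ 2) D) with hY
  have hYs : σ Y = Y := by
    rw [hY]
    conv_rhs => rw [← inv H hN hD0 hD10]
    simp only [YY, map_add, map_mul, map_div₀, map_pow, map_one, hNs, hJs, hX2s, hθ, hb, hDD, hww]
  obtain ⟨y, hy⟩ := h1 K L σ hc Y hYs
  refine ⟨y, ?_⟩
  have e1 : algebraMap K L (y ^ 2 + y) = Y ^ 2 + Y := by
    rw [map_add, map_pow, hy]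
  rw [e1, hDD, map_div₀, hNs]
  have e2 : t4 σ (nn θ) = (θ ^ 2 + θ) + ((σ θ) ^ 2 + σ θ) + ((σ (σ θ)) ^ 2 + σ (σ θ))
      + ((σ (σ (σ θ))) ^ 2 + σ (σ (σ θ))) := by
    simp only [t4, nn, map_add, map_mul, map_pow, map_one]
  have e3 : σ ((b ^ 2 + b) * σ (σ (b ^ 2 + b)))
      = ((σ b) ^ 2 + σ b) * ((σ (σ (σ b))) ^ 2 + σ (σ (σ b))) := by
    simp only [map_add, map_mul, map_pow]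
  have e4 : σ (σ (b ^ 2 + b)) = (σ (σ b)) ^ 2 + σ (σ b) := by
    simp only [map_add, map_pow]
  rw [e2, e3, e4]
  exact m

end Q214.MR2.ARF
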