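import Pool.Agent.Q49.MR2.Stm

/-!
# Project MR2 (helper49), job MEM (helper214): the members of the pencil
-/

set_option autoImplicit false
set_option linter.unusedVariables false
set_option linter.unusedSimpArgs false

open Module

namespace Q214.MR2.MEM

open Q49.MR2 Q49.MR

section pure

variable {L : Type} [Field L]

/-- the standing equations between the elements of `L` -/
structure Dat (t0 t1 t2 t3 m0 m1 m2 m3 D w N J X1 X2 R X3 : L) : Prop where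
  h2 : (2 : L) = 0
  hN : N = (1 + (t0 + t1) + m0) + (1 + (t1 + t2) + m1) + (1 + (t2 + t3) + m2)
    + (1 + (t3 + (t0 + 1)) + m3)
  hJ : J = (1 + (t0 + t1) + m0) + (1 + (t2 + t3) + m2) + D * N
  hX1 : X1 = D * (D + 1) * J + ((t0 ^ 2 + t0) + (t2 ^ 2 + t2)) * D ^ 2
    + ((t1 ^ 2 + t1) + (t3 ^ 2 + t3)) * (D + 1) ^ 2
  hX2 : X2 = J ^ 2 + J + ((t0 ^ 2 + t0) + (t1 ^ 2 + t1) + (t2 ^ 2 + t2) + (t3 ^ 2 + t3))
  hR : R = (w + D * (D + 1)) * J + (1 + (t0 + t1) + m0) * (D * (D + 1))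
      + (1 + (t2 + t3) + m2) * (D + 1) ^ 2 + (1 + (t1 + t2) + m1) * D
  hX3 : X3 = R ^ 2
    + w ^ 2 * (J + ((t0 ^ 2 + t0) + (t1 ^ 2 + t1) + (t2 ^ 2 + t2) + (t3 ^ 2 + t3)))
    + w * (D * (D + 1)) * N + (D + 1) ^ 2 * (1 + (t2 + t3) + m2)
    + D ^ 2 * (1 + (t1 + t2) + m1) + (t1 ^ 2 + t1) * D ^ 2 + (t2 ^ 2 + t2)
    + (t3 ^ 2 + t3) * (D + 1) ^ 2

variable {t0 t1 t2 t3 m0 m1 m2 m3 D w N J X1 X2 R X3 : L}

/-- the standing equations are invariant -/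
theorem rot {N' J' X1' X2' R' X3' : L} (H : Dat t0 t1 t2 t3 m0 m1 m2 m3 D w N J X1 X2 R X3)
    (H' : Dat t1 t2 t3 (t0 + 1) m1 m2 m3 m0 (D + 1) (w + D) N' J' X1' X2' R' X3') :
    N' = N ∧ J' = J ∧ X1' = X1 ∧ X2' = X2 ∧ R' = R ∧ X3' = X3 := by
  obtain ⟨h2, hN, hJ, hX1, hX2, hR, hX3⟩ := H
  obtain ⟨-, hN', hJ', hX1', hX2', hR', hX3'⟩ := H'
  have e1 : N' = N := by
    subst hN hN'
    linear_combination (1) * h2
  subst e1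
  have e2 : J' = J := by
    subst hJ hJ' hN
    linear_combination (t1 + t2 + 3 + m1 + t3 + t0 + m3) * h2
  subst e2
  refine ⟨rfl, rfl, ?_, ?_, ?_⟩
  · rw [hX1, hX1', hJ, hN]
    linear_combination (3 * D ^ 2 * t0 + 2 * D ^ 2 * t1 + 6 * D ^ 2 + D ^ 2 * m0 + 2 * D ^ 2 * t2 + 2 * D ^ 2 * t3 + D
      ^ 2 * m2 + 9 * D * t0 + 3 * D * t1 + 11 * D + 2 * D * m0 + 5 * D * t2 + 3 * D * t3 + 2 * D * m2
      + D ^ 2 * m1 + D ^ 2 * m3 + 7 * t0 + t1 + 6 + m0 + 3 * t2 + t3 + m2 + D * m1 + D * m3 + 2 * D *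
      t2 ^ 2 + 2 * t2 ^ 2 + 2 * D * t0 ^ 2 + 2 * t0 ^ 2) * h2
  · rw [hX2, hX2']
    linear_combination (t0 + 1) * h2
  · have e3 : R' = R := by
      rw [hR, hR', hJ, hN]
      linear_combination (5 * D * t0 + 4 * D * t1 + 12 * D + 2 * D * m0 + 4 * D * t2 + 5 * D * t3 + 2 * D * m2 + 3 * D ^
      2 * t0 + 3 * D ^ 2 * t1 + 8 * D ^ 2 + D ^ 2 * m0 + 3 * D ^ 2 * t2 + 2 * D ^ 2 * m1 + 3 * D ^ 2
      * t3 + D ^ 2 * m2 + 2 * D ^ 2 * m3 + 3 * t0 + 2 * t1 + 7 + m0 + 2 * t2 + 3 * t3 + m2 + 2 * D *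
      m1 + 3 * D * m3 + m1 + 2 * m3) * h2
    subst e3
    refine ⟨rfl, ?_⟩
    rw [hX3, hX3', hJ, hN]
    linear_combination (t0 * w ^ 2 + w ^ 2 + 6 * D * t0 * w + 4 * D * t1 * w + 9 * D * w + 2 * D * m0 * w + 4 * D * t2
      * w + 4 * D * t3 * w + 2 * D * m2 * w + 2 * D ^ 2 * t0 * w + 2 * D ^ 2 * t1 * w + 5 * D ^ 2 * w
      + D ^ 2 * m0 * w + 2 * D ^ 2 * t2 * w + D ^ 2 * m1 * w + 2 * D ^ 2 * t3 * w + D ^ 2 * m2 * w +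
      D ^ 2 * m3 * w + D * t1 ^ 2 * w + D * t2 ^ 2 * w + D * t3 ^ 2 * w + D * t0 ^ 2 * w + 7 * D ^ 2
      * t0 + 3 * D ^ 2 * t1 + 11 * D ^ 2 + 2 * D ^ 2 * m0 + 4 * D ^ 2 * t2 + 4 * D ^ 2 * t3 + 2 * D ^
      2 * m2 + 2 * D ^ 3 * t0 + 2 * D ^ 3 * t1 + 5 * D ^ 3 + D ^ 3 * m0 + 2 * D ^ 3 * t2 + D ^ 3 * m1
      + 2 * D ^ 3 * t3 + D ^ 3 * m2 + D ^ 3 * m3 + D ^ 2 * t2 ^ 2 + D ^ 2 * t0 ^ 2 + D * m1 * w + D *
      m3 * w + 2 * t0 * w + 2 * t1 * w + 5 * w + m0 * w + 2 * t2 * w + m1 * w + 2 * t3 * w + m2 * w +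
      m3 * w + D ^ 2 * m1 + 2 * D ^ 2 * m3 + 10 * D * t0 + 2 * D * t1 + 13 * D + D * m0 + 3 * D * t2
      + D * m1 + 3 * D * t3 + D * m2 + 3 * D * m3 + 2 * t3 + 8 * t0 + 8 + 2 * m3 + D * t2 ^ 2 + 2 * D
      * t0 ^ 2 + 2 * t0 ^ 2 - D * t3 ^ 2) * h2

/-- the value of the form -/
theorem form (H : Dat t0 t1 t2 t3 m0 m1 m2 m3 D w N J X1 X2 R X3) (a b c d : L) :
    ((a + c * J + d * R) ^ 2 + (a + c * J + d * R) * ((b * D + c + d * w)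
        + (b * (D + 1) + c + d * (w + D)))
      + (1 + (t0 + t1) + m0) * (b * D + c + d * w) * (b * (D + 1) + c + d * (w + D))
      + (1 + (t2 + t3) + m2) * (b * D + c + d * (w + 1)) * (b * (D + 1) + c + d * (w + D + 1))
      + ((t0 ^ 2 + t0) * (b * D + c + d * w) ^ 2
        + (t1 ^ 2 + t1) * (b * (D + 1) + c + d * (w + D)) ^ 2
        + (t2 ^ 2 + t2) * (b * D + c + d * (w + 1)) ^ 2
        + (t3 ^ 2 + t3) * (b * (D + 1) + c + d * (w + D + 1)) ^ 2))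
      + D * ((a + c * J + d * R) * ((b * D + c + d * w) + (b * D + c + d * (w + 1)))
      + ((1 + (t0 + t1) + m0) * (b * D + c + d * w) * (b * (D + 1) + c + d * (w + D))
        + (1 + (t1 + t2) + m1) * (b * (D + 1) + c + d * (w + D)) * (b * D + c + d * (w + 1))
        + (1 + (t2 + t3) + m2) * (b * D + c + d * (w + 1)) * (b * (D + 1) + c + d * (w + D + 1))
        + (1 + (t3 + (t0 + 1)) + m3) * (b * (D + 1) + c + d * (w + D + 1))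
          * (b * D + c + d * w)))
      = 1 * a ^ 2 + 1 * a * b + X1 * b ^ 2 + X2 * c ^ 2 + N * (D * (D + 1)) * c * d
        + X3 * d ^ 2 := by
  obtain ⟨h2, hN, hJ, hX1, hX2, hR, hX3⟩ := H
  subst hX3 hR hX2 hX1 hJ hN
  linear_combination (a * c * t0 + a * c * t1 + 3 * a * c + a * c * m0 + a * c * t2 + a * c * t3 + a * c * m2 + 2 * D
      * a * c * t0 + 2 * D * a * c * t1 + 6 * D * a * c + D * a * c * m0 + 2 * D * a * c * t2 + D * a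
      * c * m1 + 2 * D * a * c * t3 + D * a * c * m2 + D * a * c * m3 + a * d * t0 * w + a * d * t1 *
      w + 3 * a * d * w + a * d * m0 * w + a * d * t2 * w + a * d * t3 * w + a * d * m2 * w + 2 * D *
      a * d * t0 * w + 2 * D * a * d * t1 * w + 6 * D * a * d * w + D * a * d * m0 * w + 2 * D * a *
      d * t2 * w + D * a * d * m1 * w + 2 * D * a * d * t3 * w + D * a * d * m2 * w + D * a * d * m3
      * w + 4 * D ^ 2 * a * d * t0 + 4 * D ^ 2 * a * d * t1 + 9 * D ^ 2 * a * d + 3 * D ^ 2 * a * d *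
      m0 + 4 * D ^ 2 * a * d * t2 + 4 * D ^ 2 * a * d * t3 + 3 * D ^ 2 * a * d * m2 + 2 * D ^ 3 * a *
      d * t0 + 2 * D ^ 3 * a * d * t1 + 5 * D ^ 3 * a * d + D ^ 3 * a * d * m0 + 2 * D ^ 3 * a * d *
      t2 + D ^ 3 * a * d * m1 + 2 * D ^ 3 * a * d * t3 + D ^ 3 * a * d * m2 + D ^ 3 * a * d * m3 + 2
      * D * a * d * t0 + 3 * D * a * d * t1 + 7 * D * a * d + 2 * D * a * d * m0 + 4 * D * a * d * t2
      + 3 * D * a * d * t3 + 3 * D * a * d * m2 + D ^ 2 * a * d * m1 + D ^ 2 * a * d * m3 + a * d *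
      t2 + a * d * t3 + a * d + a * d * m2 + D * a * d * m1 + c ^ 2 * t0 + 3 * D * c ^ 2 * t0 + 2 * c
      * d * t0 ^ 2 * w + 2 * c * d * t0 * t1 * w + 8 * c * d * t0 * w + 2 * c * d * m0 * t0 * w + 2 *
      c * d * t0 * t2 * w + 2 * c * d * t0 * t3 * w + 2 * c * d * m2 * t0 * w + 4 * D * c * d * t0 ^
      2 * w + 8 * D * c * d * t0 * t1 * w + 26 * D * c * d * t0 * w + 6 * D * c * d * m0 * t0 * w + 8
      * D * c * d * t0 * t2 * w + 2 * D * c * d * m1 * t0 * w + 8 * D * c * d * t0 * t3 * w + 6 * D *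
      c * d * m2 * t0 * w) * h2
      + (2 * D * c * d * m3 * t0 * w + 8 * D ^ 2 * c * d * t0 ^ 2 + 18 * D ^ 2 * c * d * t0 * t1 + 47 *
      D ^ 2 * c * d * t0 + 13 * D ^ 2 * c * d * m0 * t0 + 20 * D ^ 2 * c * d * t0 * t2 + 18 * D ^ 2 *
      c * d * t0 * t3 + 15 * D ^ 2 * c * d * m2 * t0 + 10 * D ^ 3 * c * d * t0 ^ 2 + 20 * D ^ 3 * c *
      d * t0 * t1 + 53 * D ^ 3 * c * d * t0 + 13 * D ^ 3 * c * d * m0 * t0 + 20 * D ^ 3 * c * d * t0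
      * t2 + 7 * D ^ 3 * c * d * m1 * t0 + 20 * D ^ 3 * c * d * t0 * t3 + 13 * D ^ 3 * c * d * m2 *
      t0 + 7 * D ^ 3 * c * d * m3 * t0 + 2 * D * c * d * t0 ^ 2 + 5 * D * c * d * t0 * t1 + 15 * D *
      c * d * t0 + 4 * D * c * d * m0 * t0 + 8 * D * c * d * t0 * t2 + 7 * D * c * d * t0 * t3 + 7 *
      D * c * d * m2 * t0 + 5 * D ^ 2 * c * d * m1 * t0 + 3 * D ^ 2 * c * d * m3 * t0 + c * d * t0 *
      t2 + c * d * t0 * t3 + c * d * t0 + c * d * m2 * t0 + D * c * d * m1 * t0 + c ^ 2 * t1 + 3 * D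
      * c ^ 2 * t1 + 2 * c * d * t1 ^ 2 * w + 8 * c * d * t1 * w + 2 * c * d * m0 * t1 * w + 2 * c *
      d * t1 * t2 * w + 2 * c * d * t1 * t3 * w + 2 * c * d * m2 * t1 * w + 4 * D * c * d * t1 ^ 2 *
      w + 26 * D * c * d * t1 * w + 6 * D * c * d * m0 * t1 * w + 8 * D * c * d * t1 * t2 * w + 2 * D
      * c * d * m1 * t1 * w + 8 * D * c * d * t1 * t3 * w + 6 * D * c * d * m2 * t1 * w + 2 * D * c *
      d * m3 * t1 * w + 10 * D ^ 2 * c * d * t1 ^ 2 + 53 * D ^ 2 * c * d * t1 + 14 * D ^ 2 * c * d *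
      m0 * t1 + 22 * D ^ 2 * c * d * t1 * t2 + 20 * D ^ 2 * c * d * t1 * t3 + 16 * D ^ 2 * c * d * m2
      * t1 + 10 * D ^ 3 * c * d * t1 ^ 2 + 53 * D ^ 3 * c * d * t1 + 13 * D ^ 3 * c * d * m0 * t1 +
      20 * D ^ 3 * c * d * t1 * t2 + 7 * D ^ 3 * c * d * m1 * t1 + 20 * D ^ 3 * c * d * t1 * t3 + 13
      * D ^ 3 * c * d * m2 * t1 + 7 * D ^ 3 * c * d * m3 * t1 + 4 * D * c * d * t1 ^ 2 + 19 * D * c *
      d * t1 + 5 * D * c * d * m0 * t1 + 9 * D * c * d * t1 * t2 + 8 * D * c * d * t1 * t3 + 8 * D *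
      c * d * m2 * t1 + 6 * D ^ 2 * c * d * m1 * t1 + 4 * D ^ 2 * c * d * m3 * t1 + c * d * t1 * t2 +
      c * d * t1 * t3 + c * d * t1 + c * d * m2 * t1 + D * c * d * m1 * t1 + 2 * c ^ 2 + c ^ 2 * m0 +
      c ^ 2 * t2 + c ^ 2 * t3 + c ^ 2 * m2) * h2
      + (7 * D * c ^ 2 + 2 * D * c ^ 2 * m0 + 3 * D * c ^ 2 * t2 + D * c ^ 2 * m1 + 3 * D * c ^ 2 * t3 +
      2 * D * c ^ 2 * m2 + D * c ^ 2 * m3 + 10 * c * d * w + 7 * c * d * m0 * w + 8 * c * d * t2 * w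
      + 8 * c * d * t3 * w + 7 * c * d * m2 * w + 39 * D * c * d * w + 19 * D * c * d * m0 * w + 26 *
      D * c * d * t2 * w + 7 * D * c * d * m1 * w + 26 * D * c * d * t3 * w + 19 * D * c * d * m2 * w
      + 7 * D * c * d * m3 * w + 68 * D ^ 2 * c * d + 37 * D ^ 2 * c * d * m0 + 59 * D ^ 2 * c * d *
      t2 + 53 * D ^ 2 * c * d * t3 + 43 * D ^ 2 * c * d * m2 + 69 * D ^ 3 * c * d + 35 * D ^ 3 * c *
      d * m0 + 53 * D ^ 3 * c * d * t2 + 18 * D ^ 3 * c * d * m1 + 53 * D ^ 3 * c * d * t3 + 35 * D ^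
      3 * c * d * m2 + 18 * D ^ 3 * c * d * m3 + 27 * D * c * d + 14 * D * c * d * m0 + 28 * D * c *
      d * t2 + 26 * D * c * d * t3 + 24 * D * c * d * m2 + 16 * D ^ 2 * c * d * m1 + 10 * D ^ 2 * c *
      d * m3 + 6 * c * d * t2 + 6 * c * d * t3 + 4 * c * d + 5 * c * d * m2 + 4 * D * c * d * m1 + c
      * d * m0 ^ 2 * w + 2 * c * d * m0 * t2 * w + 2 * c * d * m0 * t3 * w + 2 * c * d * m0 * m2 * w
      + 2 * D * c * d * m0 ^ 2 * w + 6 * D * c * d * m0 * t2 * w + 2 * D * c * d * m0 * m1 * w + 6 *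
      D * c * d * m0 * t3 * w + 4 * D * c * d * m0 * m2 * w + 2 * D * c * d * m0 * m3 * w + 5 * D ^ 2
      * c * d * m0 ^ 2 + 15 * D ^ 2 * c * d * m0 * t2 + 14 * D ^ 2 * c * d * m0 * t3 + 11 * D ^ 2 * c
      * d * m0 * m2 + 4 * D ^ 3 * c * d * m0 ^ 2 + 13 * D ^ 3 * c * d * m0 * t2 + 5 * D ^ 3 * c * d *
      m0 * m1 + 13 * D ^ 3 * c * d * m0 * t3 + 8 * D ^ 3 * c * d * m0 * m2 + 5 * D ^ 3 * c * d * m0 *
      m3 + 2 * D * c * d * m0 ^ 2 + 7 * D * c * d * m0 * t2 + 6 * D * c * d * m0 * t3 + 6 * D * c * d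
      * m0 * m2 + 4 * D ^ 2 * c * d * m0 * m1 + 3 * D ^ 2 * c * d * m0 * m3 + c * d * m0 * t2 + c * d
      * m0 * t3 + c * d * m0 + c * d * m0 * m2 + D * c * d * m0 * m1 + 2 * c * d * t2 ^ 2 * w + 2 * c
      * d * t2 * t3 * w + 2 * c * d * m2 * t2 * w + 4 * D * c * d * t2 ^ 2 * w + 2 * D * c * d * m1 *
      t2 * w) * h2
      + (8 * D * c * d * t2 * t3 * w + 6 * D * c * d * m2 * t2 * w + 2 * D * c * d * m3 * t2 * w + 12 *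
      D ^ 2 * c * d * t2 ^ 2 + 22 * D ^ 2 * c * d * t2 * t3 + 17 * D ^ 2 * c * d * m2 * t2 + 10 * D ^
      3 * c * d * t2 ^ 2 + 7 * D ^ 3 * c * d * m1 * t2 + 20 * D ^ 3 * c * d * t2 * t3 + 13 * D ^ 3 *
      c * d * m2 * t2 + 7 * D ^ 3 * c * d * m3 * t2 + 6 * D * c * d * t2 ^ 2 + 11 * D * c * d * t2 *
      t3 + 10 * D * c * d * m2 * t2 + 7 * D ^ 2 * c * d * m1 * t2 + 5 * D ^ 2 * c * d * m3 * t2 + 2 *
      c * d * t2 ^ 2 + 2 * c * d * t2 * t3 + 2 * c * d * m2 * t2 + 2 * D * c * d * m1 * t2 + 2 * c *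
      d * t3 ^ 2 * w + 2 * c * d * m2 * t3 * w + 2 * D * c * d * m1 * t3 * w + 4 * D * c * d * t3 ^ 2
      * w + 6 * D * c * d * m2 * t3 * w + 2 * D * c * d * m3 * t3 * w + 10 * D ^ 2 * c * d * t3 ^ 2 +
      16 * D ^ 2 * c * d * m2 * t3 + 7 * D ^ 3 * c * d * m1 * t3 + 10 * D ^ 3 * c * d * t3 ^ 2 + 13 *
      D ^ 3 * c * d * m2 * t3 + 7 * D ^ 3 * c * d * m3 * t3 + 6 * D * c * d * t3 ^ 2 + 9 * D * c * d
      * m2 * t3 + 6 * D ^ 2 * c * d * m1 * t3 + 4 * D ^ 2 * c * d * m3 * t3 + 2 * c * d * t3 ^ 2 + 2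
      * c * d * m2 * t3 + 2 * D * c * d * m1 * t3 + c * d * m2 ^ 2 * w + 2 * D * c * d * m1 * m2 * w
      + 2 * D * c * d * m2 ^ 2 * w + 2 * D * c * d * m2 * m3 * w + 6 * D ^ 2 * c * d * m2 ^ 2 + 5 * D
      ^ 3 * c * d * m1 * m2 + 4 * D ^ 3 * c * d * m2 ^ 2 + 5 * D ^ 3 * c * d * m2 * m3 + 4 * D * c *
      d * m2 ^ 2 + 5 * D ^ 2 * c * d * m1 * m2 + 4 * D ^ 2 * c * d * m2 * m3 + c * d * m2 ^ 2 + 2 * D
      * c * d * m1 * m2 + 2 * D ^ 2 * c ^ 2 * t0 + 4 * D ^ 2 * c * d * t0 ^ 2 * w + 8 * D ^ 2 * c * d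
      * t0 * t1 * w + 24 * D ^ 2 * c * d * t0 * w + 4 * D ^ 2 * c * d * m0 * t0 * w + 8 * D ^ 2 * c *
      d * t0 * t2 * w + 4 * D ^ 2 * c * d * m1 * t0 * w + 8 * D ^ 2 * c * d * t0 * t3 * w + 4 * D ^ 2
      * c * d * m2 * t0 * w + 4 * D ^ 2 * c * d * m3 * t0 * w + 4 * D ^ 4 * c * d * t0 ^ 2 + 8 * D ^
      4 * c * d * t0 * t1 + 22 * D ^ 4 * c * d * t0 + 4 * D ^ 4 * c * d * m0 * t0 + 8 * D ^ 4 * c * d
      * t0 * t2 + 4 * D ^ 4 * c * d * m1 * t0 + 8 * D ^ 4 * c * d * t0 * t3 + 4 * D ^ 4 * c * d * m2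
      * t0 + 4 * D ^ 4 * c * d * m3 * t0 + 2 * D ^ 2 * c ^ 2 * t1 + 4 * D ^ 2 * c * d * t1 ^ 2 * w +
      24 * D ^ 2 * c * d * t1 * w + 4 * D ^ 2 * c * d * m0 * t1 * w + 8 * D ^ 2 * c * d * t1 * t2 * w
      + 4 * D ^ 2 * c * d * m1 * t1 * w + 8 * D ^ 2 * c * d * t1 * t3 * w + 4 * D ^ 2 * c * d * m2 *
      t1 * w) * h2
      + (4 * D ^ 2 * c * d * m3 * t1 * w + 4 * D ^ 4 * c * d * t1 ^ 2 + 22 * D ^ 4 * c * d * t1 + 4 * D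
      ^ 4 * c * d * m0 * t1 + 8 * D ^ 4 * c * d * t1 * t2 + 4 * D ^ 4 * c * d * m1 * t1 + 8 * D ^ 4 *
      c * d * t1 * t3 + 4 * D ^ 4 * c * d * m2 * t1 + 4 * D ^ 4 * c * d * m3 * t1 + 5 * D ^ 2 * c ^ 2
      + D ^ 2 * c ^ 2 * m0 + 2 * D ^ 2 * c ^ 2 * t2 + D ^ 2 * c ^ 2 * m1 + 2 * D ^ 2 * c ^ 2 * t3 + D
      ^ 2 * c ^ 2 * m2 + D ^ 2 * c ^ 2 * m3 + 35 * D ^ 2 * c * d * w + 12 * D ^ 2 * c * d * m0 * w +
      24 * D ^ 2 * c * d * t2 * w + 12 * D ^ 2 * c * d * m1 * w + 24 * D ^ 2 * c * d * t3 * w + 12 *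
      D ^ 2 * c * d * m2 * w + 12 * D ^ 2 * c * d * m3 * w + 30 * D ^ 4 * c * d + 11 * D ^ 4 * c * d
      * m0 + 22 * D ^ 4 * c * d * t2 + 11 * D ^ 4 * c * d * m1 + 22 * D ^ 4 * c * d * t3 + 11 * D ^ 4
      * c * d * m2 + 11 * D ^ 4 * c * d * m3 + D ^ 2 * c * d * m0 ^ 2 * w + 4 * D ^ 2 * c * d * m0 *
      t2 * w + 2 * D ^ 2 * c * d * m0 * m1 * w + 4 * D ^ 2 * c * d * m0 * t3 * w + 2 * D ^ 2 * c * d
      * m0 * m2 * w + 2 * D ^ 2 * c * d * m0 * m3 * w + D ^ 4 * c * d * m0 ^ 2 + 4 * D ^ 4 * c * d *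
      m0 * t2 + 2 * D ^ 4 * c * d * m0 * m1 + 4 * D ^ 4 * c * d * m0 * t3 + 2 * D ^ 4 * c * d * m0 *
      m2 + 2 * D ^ 4 * c * d * m0 * m3 + 4 * D ^ 2 * c * d * t2 ^ 2 * w + 4 * D ^ 2 * c * d * m1 * t2
      * w + 8 * D ^ 2 * c * d * t2 * t3 * w + 4 * D ^ 2 * c * d * m2 * t2 * w + 4 * D ^ 2 * c * d *
      m3 * t2 * w + 4 * D ^ 4 * c * d * t2 ^ 2 + 4 * D ^ 4 * c * d * m1 * t2 + 8 * D ^ 4 * c * d * t2
      * t3 + 4 * D ^ 4 * c * d * m2 * t2 + 4 * D ^ 4 * c * d * m3 * t2 + D ^ 2 * c * d * m1 ^ 2 * w +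
      4 * D ^ 2 * c * d * m1 * t3 * w + 2 * D ^ 2 * c * d * m1 * m2 * w + 2 * D ^ 2 * c * d * m1 * m3
      * w + D ^ 4 * c * d * m1 ^ 2 + 4 * D ^ 4 * c * d * m1 * t3 + 2 * D ^ 4 * c * d * m1 * m2 + 2 *
      D ^ 4 * c * d * m1 * m3 + D ^ 3 * c * d * m1 ^ 2 + 2 * D ^ 3 * c * d * m1 * m3 + D ^ 2 * c * d
      * m1 ^ 2 + 4 * D ^ 2 * c * d * t3 ^ 2 * w + 4 * D ^ 2 * c * d * m2 * t3 * w + 4 * D ^ 2 * c * d
      * m3 * t3 * w + 4 * D ^ 4 * c * d * t3 ^ 2 + 4 * D ^ 4 * c * d * m2 * t3 + 4 * D ^ 4 * c * d *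
      m3 * t3 + D ^ 2 * c * d * m2 ^ 2 * w + 2 * D ^ 2 * c * d * m2 * m3 * w + D ^ 4 * c * d * m2 ^ 2
      + 2 * D ^ 4 * c * d * m2 * m3 + D ^ 2 * c * d * m3 ^ 2 * w + D ^ 4 * c * d * m3 ^ 2 + D ^ 3 * c
      * d * m3 ^ 2 + D * c * d * m3 * t2 + D * c * d * m3 * t3 + D * c * d * m3) * h2
      + (D * c * d * m2 * m3 + D ^ 2 * c * d * m1 * m3 + d ^ 2 * t0 * w ^ 2 + 3 * D * d ^ 2 * t0 * w ^ 2
      + 8 * D ^ 2 * d ^ 2 * t0 * w + 6 * D ^ 3 * d ^ 2 * t0 * w + 3 * D * d ^ 2 * t0 * w + d ^ 2 * t1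
      * w ^ 2 + 3 * D * d ^ 2 * t1 * w ^ 2 + 9 * D ^ 2 * d ^ 2 * t1 * w + 6 * D ^ 3 * d ^ 2 * t1 * w
      + D * d ^ 2 * t1 ^ 2 * w + 5 * D * d ^ 2 * t1 * w + 2 * d ^ 2 * w ^ 2 + d ^ 2 * m0 * w ^ 2 + d
      ^ 2 * t2 * w ^ 2 + d ^ 2 * t3 * w ^ 2 + d ^ 2 * m2 * w ^ 2 + 7 * D * d ^ 2 * w ^ 2 + 2 * D * d
      ^ 2 * m0 * w ^ 2 + 3 * D * d ^ 2 * t2 * w ^ 2 + D * d ^ 2 * m1 * w ^ 2 + 3 * D * d ^ 2 * t3 * w
      ^ 2 + 2 * D * d ^ 2 * m2 * w ^ 2 + D * d ^ 2 * m3 * w ^ 2 + 20 * D ^ 2 * d ^ 2 * w + 6 * D ^ 2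
      * d ^ 2 * m0 * w + 10 * D ^ 2 * d ^ 2 * t2 * w + 9 * D ^ 2 * d ^ 2 * t3 * w + 7 * D ^ 2 * d ^ 2
      * m2 * w + 14 * D ^ 3 * d ^ 2 * w + 4 * D ^ 3 * d ^ 2 * m0 * w + 6 * D ^ 3 * d ^ 2 * t2 * w + 2
      * D ^ 3 * d ^ 2 * m1 * w + 6 * D ^ 3 * d ^ 2 * t3 * w + 4 * D ^ 3 * d ^ 2 * m2 * w + 2 * D ^ 3
      * d ^ 2 * m3 * w + 10 * D * d ^ 2 * w + 3 * D * d ^ 2 * m0 * w + 7 * D * d ^ 2 * t2 * w + 7 * D
      * d ^ 2 * t3 * w + 6 * D * d ^ 2 * m2 * w + 3 * D ^ 2 * d ^ 2 * m1 * w + 2 * D ^ 2 * d ^ 2 * m3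
      * w + 3 * d ^ 2 * t2 * w + 3 * d ^ 2 * t3 * w + 2 * d ^ 2 * w + 2 * d ^ 2 * m2 * w + D * d ^ 2
      * m1 * w + d ^ 2 * t2 ^ 2 * w + D * d ^ 2 * t3 ^ 2 * w + d ^ 2 * t3 ^ 2 * w + 2 * D ^ 2 * d ^ 2
      * t0 * w ^ 2 + 2 * D ^ 4 * d ^ 2 * t0 * w + 2 * D ^ 2 * d ^ 2 * t1 * w ^ 2 + 2 * D ^ 4 * d ^ 2
      * t1 * w + 5 * D ^ 2 * d ^ 2 * w ^ 2 + D ^ 2 * d ^ 2 * m0 * w ^ 2 + 2 * D ^ 2 * d ^ 2 * t2 * w
      ^ 2 + D ^ 2 * d ^ 2 * m1 * w ^ 2 + 2 * D ^ 2 * d ^ 2 * t3 * w ^ 2 + D ^ 2 * d ^ 2 * m2 * w ^ 2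
      + D ^ 2 * d ^ 2 * m3 * w ^ 2 + 5 * D ^ 4 * d ^ 2 * w + D ^ 4 * d ^ 2 * m0 * w + 2 * D ^ 4 * d ^
      2 * t2 * w + D ^ 4 * d ^ 2 * m1 * w + 2 * D ^ 4 * d ^ 2 * t3 * w + D ^ 4 * d ^ 2 * m2 * w + D ^
      4 * d ^ 2 * m3 * w + 2 * D ^ 4 * d ^ 2 * t0 + 4 * D ^ 3 * d ^ 2 * t0 + 2 * D ^ 2 * d ^ 2 * t0 +
      2 * D ^ 4 * d ^ 2 * t1 + 4 * D ^ 3 * d ^ 2 * t1 + 3 * D ^ 2 * d ^ 2 * t1 + 5 * D ^ 4 * d ^ 2 +
      D ^ 4 * d ^ 2 * m0 + 2 * D ^ 4 * d ^ 2 * t2) * h2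
      + (2 * D ^ 4 * d ^ 2 * t3 + D ^ 4 * d ^ 2 * m2 + 9 * D ^ 3 * d ^ 2 + 3 * D ^ 3 * d ^ 2 * m0 + 4 *
      D ^ 3 * d ^ 2 * t2 + 4 * D ^ 3 * d ^ 2 * t3 + 3 * D ^ 3 * d ^ 2 * m2 + D ^ 4 * d ^ 2 * m1 + D ^
      4 * d ^ 2 * m3 + 4 * D ^ 2 * d ^ 2 * t2 + 3 * D ^ 2 * d ^ 2 * t3 + 6 * D ^ 2 * d ^ 2 + 3 * D ^
      2 * d ^ 2 * m2 + D ^ 3 * d ^ 2 * m1 + 2 * D ^ 2 * d ^ 2 * m0 + D ^ 3 * d ^ 2 * m3 + D * d ^ 2 *
      t2 + D * d ^ 2 * t3 + D * d ^ 2 + D * d ^ 2 * m2 + D ^ 2 * d ^ 2 * m1 + D * a * b + 5 * D * b *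
      c * t0 + b * c * t0 + 5 * D * b * c * t1 + 2 * b * c * t1 + 9 * D * b * c + 2 * b * c + 3 * D *
      b * c * m0 + b * c * m0 + 5 * D * b * c * t2 + b * c * t2 + 5 * D * b * c * t3 + 2 * b * c * t3
      + 3 * D * b * c * m2 + b * c * m2 + 5 * D ^ 2 * b * c * t0 + 5 * D ^ 2 * b * c * t1 + 12 * D ^
      2 * b * c + 3 * D ^ 2 * b * c * m0 + 5 * D ^ 2 * b * c * t2 + 2 * D ^ 2 * b * c * m1 + D * b *
      c * m1 + 5 * D ^ 2 * b * c * t3 + 3 * D ^ 2 * b * c * m2 + 2 * D ^ 2 * b * c * m3 + D * b * c *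
      m3 + 5 * D * b * d * t0 * w + b * d * t0 * w + 5 * D * b * d * t1 * w + 2 * b * d * t1 * w + 9
      * D * b * d * w + 2 * b * d * w + 3 * D * b * d * m0 * w + b * d * m0 * w + 5 * D * b * d * t2
      * w + b * d * t2 * w + 5 * D * b * d * t3 * w + 2 * b * d * t3 * w + 3 * D * b * d * m2 * w + b
      * d * m2 * w + 5 * D ^ 2 * b * d * t0 * w + 5 * D ^ 2 * b * d * t1 * w + 12 * D ^ 2 * b * d * w
      + 3 * D ^ 2 * b * d * m0 * w + 5 * D ^ 2 * b * d * t2 * w + 2 * D ^ 2 * b * d * m1 * w + D * b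
      * d * m1 * w + 5 * D ^ 2 * b * d * t3 * w + 3 * D ^ 2 * b * d * m2 * w + 2 * D ^ 2 * b * d * m3
      * w + D * b * d * m3 * w + 8 * D ^ 3 * b * d * t0 + 5 * D ^ 2 * b * d * t0 + 9 * D ^ 3 * b * d
      * t1 + 7 * D ^ 2 * b * d * t1 + 20 * D ^ 3 * b * d + 15 * D ^ 2 * b * d + 6 * D ^ 3 * b * d *
      m0) * h2
      + (4 * D ^ 2 * b * d * m0 + 10 * D ^ 3 * b * d * t2 + 9 * D ^ 2 * b * d * t2 + 9 * D ^ 3 * b * d *
      t3 + 9 * D ^ 2 * b * d * t3 + 7 * D ^ 3 * b * d * m2 + 7 * D ^ 2 * b * d * m2 + 6 * D ^ 4 * b *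
      d * t0 + 6 * D ^ 4 * b * d * t1 + 14 * D ^ 4 * b * d + 4 * D ^ 4 * b * d * m0 + 6 * D ^ 4 * b *
      d * t2 + 2 * D ^ 4 * b * d * m1 + 3 * D ^ 3 * b * d * m1 + 6 * D ^ 4 * b * d * t3 + 4 * D ^ 4 *
      b * d * m2 + 2 * D ^ 4 * b * d * m3 + 2 * D ^ 3 * b * d * m3 + D * b * d * t0 + 3 * D * b * d *
      t1 + 6 * D * b * d + D * b * d * m0 + 6 * D * b * d * t2 + 6 * D * b * d * t3 + 4 * D * b * d *
      m2 + 2 * D ^ 2 * b * d * m1 + D ^ 2 * b * d * m3 + b * d * t2 + 2 * b * d * t3 + b * d + b * d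
      * m2 + D * b * d * m1 + D * b * c * t0 ^ 2 + D * b * d * t0 ^ 2 * w + D * b * c * t1 ^ 2 + D *
      b * d * t1 ^ 2 * w + D ^ 2 * b * d * t1 ^ 2 + b * c * t1 ^ 2 + b * d * t1 ^ 2 * w + D * b * d *
      t1 ^ 2 + D * b * c * t2 ^ 2 + D * b * d * t2 ^ 2 * w + D * b * d * t2 ^ 2 + D * b * c * t3 ^ 2
      + D * b * d * t3 ^ 2 * w + D ^ 2 * b * d * t3 ^ 2 + 2 * D * b * d * t3 ^ 2 + b * c * t3 ^ 2 + b
      * d * t3 ^ 2 * w + b * d * t3 ^ 2 + D ^ 2 * a * b + 2 * D ^ 3 * b * c * t0 + 2 * D ^ 3 * b * c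
      * t1 + 5 * D ^ 3 * b * c + D ^ 3 * b * c * m0 + 2 * D ^ 3 * b * c * t2 + D ^ 3 * b * c * m1 + 2
      * D ^ 3 * b * c * t3 + D ^ 3 * b * c * m2 + D ^ 3 * b * c * m3 + 2 * D ^ 3 * b * d * t0 * w + 2
      * D ^ 3 * b * d * t1 * w + 5 * D ^ 3 * b * d * w + D ^ 3 * b * d * m0 * w + 2 * D ^ 3 * b * d *
      t2 * w + D ^ 3 * b * d * m1 * w + 2 * D ^ 3 * b * d * t3 * w + D ^ 3 * b * d * m2 * w + D ^ 3 *
      b * d * m3 * w + 2 * D ^ 5 * b * d * t0 + 2 * D ^ 5 * b * d * t1 + 5 * D ^ 5 * b * d + D ^ 5 *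
      b * d * m0 + 2 * D ^ 5 * b * d * t2 + D ^ 5 * b * d * m1 + 2 * D ^ 5 * b * d * t3 + D ^ 5 * b *
      d * m2 + D ^ 5 * b * d * m3) * h2
     

end pure

section wrap

variable {K L : Type} [Field K] [Field L] [Algebra K L] {σ : L ≃ₐ[K] L}

theorem value {θ m D W ρ W1 W2 W3 : L} (hθ : σ (σ (σ (σ θ))) = θ + 1) (h1 : σ W = W1)
    (h2 : σ W1 = W2) (h3 : σ W2 = W3) (h4 : σ W3 = W) :
    G2 σ θ m W ρ + D * P2 σ θ m W ρ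
      = (ρ ^ 2 + ρ * (W + W1) + (1 + (θ + σ θ) + m) * W * W1
        + (1 + (σ (σ θ) + σ (σ (σ θ))) + σ (σ m)) * W2 * W3
        + ((θ ^ 2 + θ) * W ^ 2 + ((σ θ) ^ 2 + σ θ) * W1 ^ 2
          + ((σ (σ θ)) ^ 2 + σ (σ θ)) * W2 ^ 2
          + ((σ (σ (σ θ))) ^ 2 + σ (σ (σ θ))) * W3 ^ 2))
      + D * (ρ * (W + W2) + ((1 + (θ + σ θ) + m) * W * W1
        + (1 + (σ θ + σ (σ θ)) + σ m) * W1 * W2
        + (1 + (σ (σ θ) + σ (σ (σ θ))) + σ (σ m)) * W2 * W3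
        + (1 + (σ (σ (σ θ)) + (θ + 1)) + σ (σ (σ m))) * W3 * W)) := by
  simp only [G2, P2, t4, nu, phi, nn, map_add, map_mul, map_pow, map_one, h1, h2, h3, h4, hθ]

end wrap

theorem mem (h1 : S2_FX) : S2_MEM := by
  intro K L _ _ _ _ _ σ hc θ m D w hθ hm hN hD hD1 hw hw1
  have h2 : (2 : L) = 0 := by
    have := congrArg (algebraMap K L) hc.two
    rwa [map_ofNat, map_zero] at this
  have hDD : σ D = D + 1 := by linear_combination hD1 - D * h2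
  have hww : σ w = w + D := by linear_combination hw1 - w * h2
  have hD0 : D ≠ 0 := by
    rintro rfl
    simp at hD1
  have hD10 : D + 1 ≠ 0 := by
    rw [← hDD]
    simpa using hD0
  have H : Dat θ (σ θ) (σ (σ θ)) (σ (σ (σ θ))) m (σ m) (σ (σ m)) (σ (σ (σ m))) D w
      (N4 σ θ m) (JJ σ θ m D) (X1 σ θ m D) (X2 σ θ m D) (RR σ θ m D w)
      (X3 σ θ m D w) := by
    refine ⟨h2, ?_, ?_, ?_, ?_, ?_, ?_⟩
    · simp only [N4, t4, nu, phi, map_add, map_mul, map_pow, map_one, hθ]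
    · rw [JJ]
      simp only [nu, phi, map_add, map_mul, map_pow, map_one]
    · rw [X1, hDD]
      simp only [nn, map_add, map_mul, map_pow, map_one]
    · rw [X2]
      simp only [t4, nn, map_add, map_mul, map_pow, map_one]
    · rw [RR, hDD]
      simp only [t4, nn, nu, phi, map_add, map_mul, map_pow, map_one]
    · rw [X3, hDD]
      simp only [t4, nn, nu, phi, map_add, map_mul, map_pow, map_one]
  have H' : Dat (σ θ) (σ (σ θ)) (σ (σ (σ θ))) (θ + 1) (σ m) (σ (σ m)) (σ (σ (σ m))) m (D + 1)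
      (w + D) (σ (N4 σ θ m)) (σ (JJ σ θ m D)) (σ (X1 σ θ m D)) (σ (X2 σ θ m D))
      (σ (RR σ θ m D w)) (σ (X3 σ θ m D w)) := by
    obtain ⟨-, a1, a2, a3, a4, a5, a6⟩ := H
    refine ⟨h2, ?_, ?_, ?_, ?_, ?_, ?_⟩
    · conv_lhs => rw [a1]
      simp only [map_add, map_mul, map_pow, map_one, hθ, hm]
    · conv_lhs => rw [a2]
      simp only [map_add, map_mul, map_pow, map_one, hθ, hm, hDD]
    · conv_lhs => rw [a3]
      simp only [map_add, map_mul, map_pow, map_one, hθ, hm, hDD]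
    · conv_lhs => rw [a4]
      simp only [map_add, map_mul, map_pow, map_one, hθ, hm, hDD]
    · conv_lhs => rw [a5]
      simp only [map_add, map_mul, map_pow, map_one, hθ, hm, hDD, hww]
    · conv_lhs => rw [a6]
      simp only [map_add, map_mul, map_pow, map_one, hθ, hm, hDD, hww]
  obtain ⟨sN, sJ, sX1, sX2, sR, sX3⟩ := rot H H'
  have sp : σ (N4 σ θ m * (D * σ D)) = N4 σ θ m * (D * σ D) := by
    rw [map_mul, map_mul, hD, sN]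
    ring
  obtain ⟨x1, hx1⟩ := h1 K L σ hc _ sX1
  obtain ⟨x2, hx2⟩ := h1 K L σ hc _ sX2
  obtain ⟨x3, hx3⟩ := h1 K L σ hc _ sX3
  obtain ⟨p, hp⟩ := h1 K L σ hc _ sp
  obtain ⟨j, hj⟩ := h1 K L σ hc _ sJ
  obtain ⟨r, hr⟩ := h1 K L σ hc _ sR
  refine ⟨x1, x2, x3, p, hx1, hx2, hx3, hp, ?_, ?_⟩
  · rintro rfl
    rw [map_zero] at hp
    exact mul_ne_zero hN (mul_ne_zero hD0 (by rw [hDD]; exact hD10)) hp.symm
  have inj := (algebraMap K L).injective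
  set A := algebraMap K L with hA
  have sA : ∀ c : K, σ (A c) = A c := fun c => AlgEquiv.commutes σ c
  -- the map
  let f : (Fin 4 → K) → L × K := fun x => (A (x 1) * D + A (x 2) + A (x 3) * w,
    x 0 + x 2 * j + x 3 * r)
  have W1 : ∀ x : Fin 4 → K, σ (A (x 1) * D + A (x 2) + A (x 3) * w)
      = A (x 1) * (D + 1) + A (x 2) + A (x 3) * (w + D) := by
    intro x
    simp only [map_add, map_mul, sA, hDD, hww]
  have W2 : ∀ x : Fin 4 → K, σ (A (x 1) * (D + 1) + A (x 2) + A (x 3) * (w + D))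
      = A (x 1) * D + A (x 2) + A (x 3) * (w + 1) := by
    intro x
    simp only [map_add, map_mul, sA, hDD, hww, map_one]
    linear_combination (A (x 1) + A (x 3) * D) * h2
  have W3 : ∀ x : Fin 4 → K, σ (A (x 1) * D + A (x 2) + A (x 3) * (w + 1))
      = A (x 1) * (D + 1) + A (x 2) + A (x 3) * (w + D + 1) := by
    intro x
    simp only [map_add, map_mul, sA, hDD, hww, map_one]
  have W4 : ∀ x : Fin 4 → K, σ (A (x 1) * (D + 1) + A (x 2) + A (x 3) * (w + D + 1))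
      = A (x 1) * D + A (x 2) + A (x 3) * w := by
    intro x
    simp only [map_add, map_mul, sA, hDD, hww, map_one]
    linear_combination (A (x 1) + A (x 3) * (D + 1)) * h2
  have hIn : ∀ x, InV σ (f x) := by
    intro x
    refine ⟨?_, ?_⟩
    · show σ (σ (σ (σ (A (x 1) * D + A (x 2) + A (x 3) * w)))) = _
      rw [W1, W2, W3, W4]
    · show t4 σ (A (x 1) * D + A (x 2) + A (x 3) * w) = 0
      rw [t4, W1, W2, W3]
      linear_combination (A (x 1) * (2 * D + 1) + 2 * A (x 2) + A (x 3) * (2 * w + D + 1)) * h2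
  have key : ∀ x, G2 σ θ m (f x).1 (A (f x).2) + D * P2 σ θ m (f x).1 (A (f x).2)
      = A (1 * x 0 ^ 2 + 1 * x 0 * x 1 + x1 * x 1 ^ 2 + x2 * x 2 ^ 2 + p * x 2 * x 3
        + x3 * x 3 ^ 2) := by
    intro x
    have e1 : A (f x).2 = A (x 0) + A (x 2) * JJ σ θ m D + A (x 3) * RR σ θ m D w := by
      show A (x 0 + x 2 * j + x 3 * r) = _
      rw [map_add, map_add, map_mul, map_mul, hj, hr]
    have e2 := value (m := m) (D := D) (ρ := A (f x).2) hθ (W1 x) (W2 x) (W3 x) (W4 x)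
    have e3 := form H (A (x 0)) (A (x 1)) (A (x 2)) (A (x 3))
    rw [← e1] at e3
    refine (e2.trans e3).trans ?_
    rw [← hx1, ← hx2, ← hx3]
    simp only [map_add, map_mul, map_pow, map_one]
    rw [hp, hDD]
  have finj : Function.Injective f := by
    intro x y hxy
    have q1 : A (x 1) * D + A (x 2) + A (x 3) * w = A (y 1) * D + A (y 2) + A (y 3) * w :=
      congrArg Prod.fst hxy
    have q2 : x 0 + x 2 * j + x 3 * r = y 0 + y 2 * j + y 3 * r := congrArg Prod.snd hxy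
    have q3 := congrArg σ q1
    rw [W1, W1] at q3
    have q4 := congrArg σ q3
    rw [W2, W2] at q4
    have q5 : A (x 3) = A (y 3) := by linear_combination q4 - q1
    have q6 : A (x 1) = A (y 1) := by linear_combination q3 - q1 - D * q5
    have q7 : A (x 2) = A (y 2) := by linear_combination q1 - D * q6 - w * q5
    have r3 := inj q5
    have r1 := inj q6
    have r2 := inj q7
    have r0 : x 0 = y 0 := by
      rw [r3, r2] at q2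
      linear_combination q2
    funext i
    fin_cases i
    · exact r0
    · exact r1
    · exact r2
    · exact r3
  have fsurj : ∀ z : L × K, InV σ z → ∃ x, f x = z := by
    rintro ⟨W, ρ⟩ ⟨i1, i2⟩
    have i1' : σ (σ (σ (σ W))) = W := i1
    have i2' : W + σ W + σ (σ W) + σ (σ (σ W)) = 0 := i2
    obtain ⟨d, hd⟩ := h1 K L σ hc (W + σ (σ W)) (by
      rw [map_add]
      linear_combination i2' - (W + σ (σ W)) * h2)
    have hu2 : σ (σ (W + A d * w)) = W + A d * w := by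
      simp only [map_add, map_mul, sA, hDD, hww]
      have hd' : A d = W + σ (σ W) := hd
      linear_combination hd' + (A d * D + σ (σ W)) * h2
    obtain ⟨b, hb⟩ := h1 K L σ hc ((W + A d * w) + σ (W + A d * w)) (by
      rw [map_add, hu2]
      ring)
    obtain ⟨c, hcc⟩ := h1 K L σ hc ((W + A d * w) + A b * D) (by
      rw [map_add, map_mul, sA, hDD]
      have hb' : A b = (W + A d * w) + σ (W + A d * w) := hb
      linear_combination hb' + σ (W + A d * w) * h2)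
    have hcc' : A c = (W + A d * w) + A b * D := hcc
    refine ⟨![ρ - c * j - d * r, b, c, d], ?_⟩
    refine Prod.ext ?_ ?_
    · show A b * D + A c + A d * w = W
      linear_combination hcc' + (A d * w + A b * D) * h2
    · show (ρ - c * j - d * r) + c * j + d * r = ρ
      ring
  symm
  refine Nat.card_congr (Equiv.ofBijective (fun x : {x : Fin 4 → K // 1 * x 0 ^ 2
      + 1 * x 0 * x 1 + x1 * x 1 ^ 2 + x2 * x 2 ^ 2 + p * x 2 * x 3 + x3 * x 3 ^ 2 = 0} =>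
    (⟨f x.1, hIn x.1, by rw [key, x.2, map_zero]⟩ : {z : L × K // InV σ z ∧
      G2 σ θ m z.1 (A z.2) + D * P2 σ θ m z.1 (A z.2) = 0})) ⟨?_, ?_⟩)
  · intro x y hxy
    exact Subtype.ext (finj (congrArg Subtype.val hxy))
  · rintro ⟨z, hz, hz0⟩
    obtain ⟨x, rfl⟩ := fsurj z hz
    refine ⟨⟨x, ?_⟩, rfl⟩
    apply inj
    rw [← key, hz0, map_zero]

end Q214.MR2.MEM
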