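import Pool.Agent.Q49.MR2.Stm

/-!
# Project MR2 (helper49), job PSI (helper214): the zeros of `Ψ`
-/

set_option autoImplicit false
set_option linter.unusedVariables false
set_option linter.unusedSimpArgs false

open Module

namespace Q214.MR2.PSI

open Q49.MR2 Q49.MR

section

variable {K L : Type} [Field K] [Field L] [Algebra K L] {σ : L ≃ₐ[K] L}

/-- `t4` on `E4` -/
def T4 (σ : L ≃ₐ[K] L) : E4 σ →ₗ[K] L where
  toFun w := t4 σ w
  map_add' := by
    intro a b
    simp only [t4, Submodule.coe_add, map_add]; ring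
  map_smul' := by
    intro c a
    simp only [t4, Submodule.coe_smul, Algebra.smul_def, map_mul, AlgEquiv.commutes,
      RingHom.id_apply]
    ring

theorem T4_apply (w : E4 σ) : T4 σ w = t4 σ (w : L) := rfl

theorem t4_fix {x : L} (hx : σ (σ (σ (σ x))) = x) : σ (t4 σ x) = t4 σ x := by
  simp only [t4, map_add, hx]
  ring

theorem nu4 {θ m : L} (two : (2 : L) = 0) (hθ : σ (σ (σ (σ θ))) = θ + 1)
    (hm : σ (σ (σ (σ m))) = m) : σ (σ (σ (σ (nu σ θ m)))) = nu σ θ m := by
  simp only [nu, phi, map_add, map_one, hθ, hm]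
  linear_combination two

theorem card_ker (h1 : S2_FX) (h2 : S2_DIM) [Finite K] [Finite L] (hc : Cyc2 σ) {θ : L}
    (hθ : σ (σ (σ (σ θ))) = θ + 1) :
    Nat.card (LinearMap.ker (T4 σ)) = Nat.card K ^ 3 := by
  have two : (2 : L) = 0 := by
    have := congrArg (algebraMap K L) hc.two
    rwa [map_ofNat, map_zero] at this
  obtain ⟨d4, -⟩ := h2 K L σ hc
  have hφ : phi σ θ ∈ E4 σ := by
    show σ (σ (σ (σ (phi σ θ)))) = phi σ θ
    simp only [phi, map_add, hθ, map_one]
    linear_combination two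
  have hφ1 : T4 σ ⟨phi σ θ, hφ⟩ = 1 := by
    show t4 σ (phi σ θ) = 1
    simp only [t4, phi, map_add, hθ]
    linear_combination (θ + σ θ + σ (σ θ) + σ (σ (σ θ))) * two
  have hr : finrank K (LinearMap.range (T4 σ)) = 1 := by
    refine (finrank_eq_one_iff_of_nonzero' (⟨1, ⟨_, hφ1⟩⟩ : LinearMap.range (T4 σ)) ?_).2 ?_
    · intro h
      exact one_ne_zero (congrArg Subtype.val h)
    · rintro ⟨x, w, rfl⟩
      obtain ⟨c, hcc⟩ := h1 K L σ hc (t4 σ (w : L)) (t4_fix w.2)
      refine ⟨c, Subtype.ext ?_⟩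
      show c • (1 : L) = t4 σ (w : L)
      rw [Algebra.smul_def, mul_one, hcc]
  have hrk := LinearMap.finrank_range_add_finrank_ker (T4 σ)
  rw [Module.natCard_eq_pow_finrank (K := K)]
  congr 1
  omega

theorem P2_split {θ m w ρ : L} : P2 σ θ m w ρ = ρ * (w + σ (σ w)) + t4 σ (nu σ θ m * w * σ w) :=
  rfl

theorem P2_E2 {θ m w ρ : L} (two : (2 : L) = 0) (hw : σ (σ w) = w) :
    P2 σ θ m w ρ = N4 σ θ m * (w * σ w) := by
  simp only [P2_split, N4, t4, map_mul, hw]
  linear_combination (ρ * w) * two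

end

theorem psi (h1 : S2_FX) (h2 : S2_DIM) : S2_PSI := by
  classical
  intro K L _ _ _ _ _ σ hc θ m hθ hm hN
  have two : (2 : L) = 0 := by
    have := congrArg (algebraMap K L) hc.two
    rwa [map_ofNat, map_zero] at this
  have hk := card_ker h1 h2 hc hθ
  have he : Nat.card (E2 σ) = Nat.card K ^ 2 := by
    rw [Module.natCard_eq_pow_finrank (K := K), (h2 K L σ hc).2]
  rw [← hk, ← he]
  have inj := (algebraMap K L).injective
  set A := algebraMap K L with hA
  have hE : ∀ u : E2 σ, σ (σ (u : L)) = u := fun u => u.2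
  have hu4 : ∀ u : E2 σ, (u : L) ∈ E4 σ := by
    intro u
    show σ (σ (σ (σ (u : L)))) = u
    rw [hE, hE]
  have huk : ∀ u : E2 σ, (⟨(u : L), hu4 u⟩ : E4 σ) ∈ LinearMap.ker (T4 σ) := by
    intro u
    rw [LinearMap.mem_ker]
    show t4 σ (u : L) = 0
    rw [t4, hE]
    linear_combination ((u : L) + σ (u : L)) * two
  -- nonzero zeros have `w + w2 ≠ 0`
  have hne : ∀ (w : L) (ρ : K), P2 σ θ m w (A ρ) = 0 → w ≠ 0 → w + σ (σ w) ≠ 0 := by
    intro w ρ hP hw h
    have h' : σ (σ w) = w := by linear_combination h - w * two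
    rw [P2_E2 two h'] at hP
    exact mul_ne_zero hN (mul_ne_zero hw (by simpa using hw)) hP
  let F : {z : L × K // InV σ z ∧ P2 σ θ m z.1 (A z.2) = 0} ⊕ E2 σ → LinearMap.ker (T4 σ) ⊕ K :=
    Sum.elim (fun z => if z.1.1 = 0 then Sum.inr z.1.2 else
      Sum.inl ⟨⟨z.1.1, z.2.1.1⟩, LinearMap.mem_ker.2 z.2.1.2⟩)
      (fun u => Sum.inl ⟨⟨(u : L), hu4 u⟩, huk u⟩)
  let G : LinearMap.ker (T4 σ) ⊕ K → L := Sum.elim (fun v => ((v : E4 σ) : L)) (fun _ => 0)
  have G1 : ∀ z : {z : L × K // InV σ z ∧ P2 σ θ m z.1 (A z.2) = 0},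
      G (F (Sum.inl z)) = z.1.1 := by
    intro z
    show G (if z.1.1 = 0 then Sum.inr z.1.2 else
      Sum.inl ⟨⟨z.1.1, z.2.1.1⟩, LinearMap.mem_ker.2 z.2.1.2⟩) = z.1.1
    split_ifs with h
    · exact h.symm
    · rfl
  have G2' : ∀ u : E2 σ, G (F (Sum.inr u)) = u := fun u => rfl
  have F0 : ∀ z : {z : L × K // InV σ z ∧ P2 σ θ m z.1 (A z.2) = 0}, z.1.1 = 0 →
      F (Sum.inl z) = Sum.inr z.1.2 := by
    intro z hz
    show (if z.1.1 = 0 then Sum.inr z.1.2 else
      Sum.inl ⟨⟨z.1.1, z.2.1.1⟩, LinearMap.mem_ker.2 z.2.1.2⟩ : LinearMap.ker (T4 σ) ⊕ K)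
        = Sum.inr z.1.2
    exact if_pos hz
  have F1 : ∀ z : {z : L × K // InV σ z ∧ P2 σ θ m z.1 (A z.2) = 0}, z.1.1 ≠ 0 →
      F (Sum.inl z) = Sum.inl ⟨⟨z.1.1, z.2.1.1⟩, LinearMap.mem_ker.2 z.2.1.2⟩ := by
    intro z hz
    show (if z.1.1 = 0 then Sum.inr z.1.2 else
      Sum.inl ⟨⟨z.1.1, z.2.1.1⟩, LinearMap.mem_ker.2 z.2.1.2⟩ : LinearMap.ker (T4 σ) ⊕ K)
        = Sum.inl ⟨⟨z.1.1, z.2.1.1⟩, LinearMap.mem_ker.2 z.2.1.2⟩
    exact if_neg hz
  have hF : Function.Bijective F := by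
    constructor
    · have cross : ∀ (z : {z : L × K // InV σ z ∧ P2 σ θ m z.1 (A z.2) = 0}) (u : E2 σ),
          F (Sum.inl z) ≠ F (Sum.inr u) := by
        intro z u hxy
        have hu : z.1.1 = (u : L) := by
          rw [← G1 z, hxy, G2']
        by_cases hw : z.1.1 = 0
        · rw [F0 z hw] at hxy
          exact Sum.inr_ne_inl hxy
        · apply hne z.1.1 z.1.2 z.2.2 hw
          rw [hu, hE]
          linear_combination (u : L) * two
      rintro (z | u) (z' | u') hxy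
      · have hzz : z.1.1 = z'.1.1 := by
          rw [← G1 z, hxy, G1]
        have hρ : z.1.2 = z'.1.2 := by
          by_cases hw : z.1.1 = 0
          · rw [F0 z hw, F0 z' (hzz ▸ hw)] at hxy
            exact Sum.inr_injective hxy
          · have h3 := hne z.1.1 z.1.2 z.2.2 hw
            have h4 : A z.1.2 * (z.1.1 + σ (σ z.1.1)) = A z'.1.2 * (z.1.1 + σ (σ z.1.1)) := by
              have q1 : A z.1.2 * (z.1.1 + σ (σ z.1.1)) + t4 σ (nu σ θ m * z.1.1 * σ z.1.1) = 0 :=
                z.2.2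
              have q2 : A z'.1.2 * (z'.1.1 + σ (σ z'.1.1))
                + t4 σ (nu σ θ m * z'.1.1 * σ z'.1.1) = 0 := z'.2.2
              rw [← hzz] at q2
              linear_combination q1 - q2
            exact inj (mul_right_cancel₀ h3 h4)
        exact congrArg Sum.inl (Subtype.ext (Prod.ext hzz hρ))
      · exact absurd hxy (cross z u')
      · exact absurd hxy.symm (cross z' u)
      · have huu : (u : L) = (u' : L) := by
          rw [← G2' u, hxy, G2']
        exact congrArg Sum.inr (Subtype.ext huu)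
    · rintro (⟨⟨w, hw⟩, hk⟩ | ρ)
      · have hw4 : σ (σ (σ (σ w))) = w := hw
        have ht : t4 σ w = 0 := hk
        have ht' : w + σ w + σ (σ w) + σ (σ (σ w)) = 0 := ht
        by_cases hω : w + σ (σ w) = 0
        · refine ⟨Sum.inr ⟨w, ?_⟩, rfl⟩
          show σ (σ w) = w
          linear_combination hω - w * two
        · have hw0 : w ≠ 0 := by
            rintro rfl
            exact hω (by simp)
          obtain ⟨o, ho⟩ := h1 K L σ hc (w + σ (σ w)) (by
            rw [map_add]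
            linear_combination ht' - (w + σ (σ w)) * two)
          obtain ⟨c, hcc⟩ := h1 K L σ hc (t4 σ (nu σ θ m * w * σ w)) (t4_fix (by
            simp only [map_mul, nu4 two hθ hm, hw4]))
          have ho0 : A o ≠ 0 := by
            rw [hA, ho]; exact hω
          refine ⟨Sum.inl ⟨(w, -(c / o)), ⟨hw4, ht⟩, ?_⟩, ?_⟩
          · show A (-(c / o)) * (w + σ (σ w)) + t4 σ (nu σ θ m * w * σ w) = 0
            rw [← ho, ← hcc, map_neg, map_div₀]
            have : algebraMap K L o ≠ 0 := ho0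
            field_simp
            ring
          · exact F1 _ hw0
      · refine ⟨Sum.inl ⟨(0, ρ), ⟨?_, ?_⟩, ?_⟩, ?_⟩
        · show σ (σ (σ (σ (0 : L)))) = 0
          simp
        · show t4 σ (0 : L) = 0
          simp [t4]
        · show A ρ * (0 + σ (σ (0 : L))) + t4 σ (nu σ θ m * 0 * σ 0) = 0
          simp [t4]
        · exact F0 _ rfl
  have := Nat.card_congr (Equiv.ofBijective F hF)
  rw [Nat.card_sum, Nat.card_sum] at this
  exact this

end Q214.MR2.PSI
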